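import Mathlib

/-!
Convex cocompact and naively convex cocompact subgroups of `PGL(d, ℝ)`.
-/

namespace Pool.Agent.H652Z.CC

/-- real projective space of `ℝ^d` -/
abbrev Proj (d : ℕ) : Type := Projectivization ℝ (Fin d → ℝ)

/-- the group `PGL(d, ℝ)` -/
abbrev PGLR (d : ℕ) : Type := Matrix.ProjGenLinGroup (Fin d) ℝ

/-- the quotient topology on projective space -/
noncomputable instance projTop (d : ℕ) : TopologicalSpace (Proj d) :=
  TopologicalSpace.coinduced (Projectivization.mk' ℝ) inferInstance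

/-- the quotient topology on `PGL(d, ℝ)` -/
noncomputable instance pglTop (d : ℕ) : TopologicalSpace (PGLR d) :=
  TopologicalSpace.coinduced Matrix.ProjGenLinGroup.mk inferInstance

variable {d : ℕ}

/-- the part of `S` seen in the affine chart `φ = 1` -/
def chart (φ : (Fin d → ℝ) →ₗ[ℝ] ℝ) (S : Set (Proj d)) : Set (Fin d → ℝ) :=
  {v | φ v = 1 ∧ ∃ h : v ≠ 0, Projectivization.mk ℝ v h ∈ S}

/-- the closure of `Ω` lies in the affine chart `φ ≠ 0`, and `Ω` is convex in that chart -/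
def ProperlyConvex (φ : (Fin d → ℝ) →ₗ[ℝ] ℝ) (Ω : Set (Proj d)) : Prop :=
  (∀ (v : Fin d → ℝ) (h : v ≠ 0), Projectivization.mk ℝ v h ∈ closure Ω → φ v ≠ 0) ∧
    Convex ℝ (chart φ Ω)

/-- `Γ` preserves `S` -/
def Invariant (Γ : Subgroup (PGLR d)) (S : Set (Proj d)) : Prop := ∀ γ ∈ Γ, ∀ x ∈ S, γ • x ∈ S

/-- the image of `C` in the orbit space of `Γ` is compact -/
def Cocompact (Γ : Subgroup (PGLR d)) (C : Set (Proj d)) : Prop :=
  IsCompact (Quotient.mk (MulAction.orbitRel Γ (Proj d)) '' C)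

/-- naive convex cocompactness -/
def NaiveCC (Γ : Subgroup (PGLR d)) : Prop :=
  Infinite Γ ∧ DiscreteTopology Γ ∧
    ∃ (φ : (Fin d → ℝ) →ₗ[ℝ] ℝ) (Ω C : Set (Proj d)), IsOpen Ω ∧ ProperlyConvex φ Ω ∧
      Invariant Γ Ω ∧ C.Nonempty ∧ C ⊆ Ω ∧ closure C ∩ Ω ⊆ C ∧ Convex ℝ (chart φ C) ∧
      Invariant Γ C ∧ Cocompact Γ C

/-- the full orbital limit set -/
def orbLimit (Γ : Subgroup (PGLR d)) (Ω : Set (Proj d)) : Set (Proj d) :=
  {p | ∃ x ∈ Ω, AccPt p (Filter.principal (MulAction.orbit Γ x))}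

/-- the convex hull of `Λ` in `Ω`, taken in the chart `φ = 1` -/
def hullIn (φ : (Fin d → ℝ) →ₗ[ℝ] ℝ) (Ω Λ : Set (Proj d)) : Set (Proj d) :=
  {x | x ∈ Ω ∧ ∃ v ∈ convexHull ℝ (chart φ Λ), ∃ h : v ≠ 0, Projectivization.mk ℝ v h = x}

/-- convex cocompactness -/
def ConvexCC (Γ : Subgroup (PGLR d)) : Prop :=
  Infinite Γ ∧ DiscreteTopology Γ ∧
    ∃ (φ : (Fin d → ℝ) →ₗ[ℝ] ℝ) (Ω : Set (Proj d)), IsOpen Ω ∧ Ω.Nonempty ∧ ProperlyConvex φ Ω ∧
      Invariant Γ Ω ∧ (hullIn φ Ω (orbLimit Γ Ω)).Nonempty ∧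
      Cocompact Γ (hullIn φ Ω (orbLimit Γ Ω))

end Pool.Agent.H652Z.CC
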