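import Pool.Agent.H652Z.CC.Gen

/-!
Dynamics on an invariant properly convex domain.
-/

namespace Pool.Agent.H652Z.CC

open Projectivization Filter Topology Matrix

variable {d : ℕ} {Γ : Subgroup (PGLR d)} {Ω : Set (Proj d)} {φ : (Fin d → ℝ) →ₗ[ℝ] ℝ}

theorem ProperlyConvex.ne (h : ProperlyConvex φ Ω) {v : Fin d → ℝ} (hv : v ∈ cone Ω) : φ v ≠ 0 :=
  let ⟨h0, h1⟩ := hv
  h.1 v h0 (subset_closure h1)

theorem Invariant.cone (h : Invariant Γ Ω) {A : GL (Fin d) ℝ} (hA : ProjGenLinGroup.mk A ∈ Γ)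
    {v : Fin d → ℝ} (hv : v ∈ cone Ω) : A • v ∈ cone Ω :=
  let ⟨h0, h1⟩ := hv
  ⟨(smul_ne_zero_iff_ne A).2 h0, h _ hA _ h1⟩

theorem mem_chart {S : Set (Proj d)} {v : Fin d → ℝ} (hv : v ∈ cone S) (h : φ v ≠ 0) :
    (φ v)⁻¹ • v ∈ chart φ S :=
  ⟨by simp [h], cone_smul hv (inv_ne_zero h)⟩

theorem sign_lemma (h : ProperlyConvex φ Ω) (hi : Invariant Γ Ω) {A : GL (Fin d) ℝ}
    (hA : ProjGenLinGroup.mk A ∈ Γ) {v w : Fin d → ℝ} (hv : v ∈ cone Ω) (hw : w ∈ cone Ω)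
    (pv : 0 < φ v) (pw : 0 < φ w) : 0 < φ (A • v) * φ (A • w) := by
  have key : ∀ v w, v ∈ cone Ω → w ∈ cone Ω → 0 < φ v → 0 < φ w → 0 < φ (A • v) →
      ¬ φ (A • w) < 0 := by
    intro v w hv hw pv pw a b
    have a' : 0 < (φ v)⁻¹ * φ (A • v) := by positivity
    have b' : 0 < -((φ w)⁻¹ * φ (A • w)) := by
      rw [← mul_neg]; exact mul_pos (inv_pos.2 pw) (by linarith)
    obtain ⟨x, hx⟩ : ∃ x, x = (φ v)⁻¹ * φ (A • v) := ⟨_, rfl⟩
    obtain ⟨y, hy⟩ : ∃ y, y = -((φ w)⁻¹ * φ (A • w)) := ⟨_, rfl⟩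
    rw [← hx] at a'
    rw [← hy] at b'
    have := h.2 (mem_chart hv pv.ne') (mem_chart hw pw.ne')
      (show 0 ≤ y / (x + y) by positivity) (show 0 ≤ x / (x + y) by positivity)
      (by field_simp; ring)
    refine h.ne (hi.cone hA this.2) ?_
    simp only [smul_add, smul_comm A, map_add, map_smul, smul_eq_mul]
    rw [← hx, ← neg_neg ((φ w)⁻¹ * φ (A • w)), ← hy]
    ring
  have a := h.ne (hi.cone hA hv)
  have b := h.ne (hi.cone hA hw)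
  rcases lt_or_gt_of_ne a with a | a <;> rcases lt_or_gt_of_ne b with b | b
  · exact mul_pos_of_neg_of_neg a b
  · exact absurd a (key w v hw hv pw pv b)
  · exact absurd b (key v w hv hw pv pw a)
  · exact mul_pos a b

theorem pos_part (ho : IsOpen Ω) (h : ProperlyConvex φ Ω) (hi : Invariant Γ Ω)
    (p : (Fin d → ℝ) →ₗ[ℝ] (Fin d → ℝ)) (hp : ∀ v, p (p v) = p v) {e : Fin d → ℝ} (he : e ≠ 0)
    (hpe : p e = e) {s : ℕ → ℝ} (hs : Tendsto s atTop (𝓝 0))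
    (hA : ∀ n, ∃ A : GL (Fin d) ℝ, ProjGenLinGroup.mk A ∈ Γ ∧ ∃ c : ℝ, c ≠ 0 ∧
      ∀ v, c • A • v = p v + s n • (v - p v))
    {v : Fin d → ℝ} (hv : v ∈ cone Ω) (pv : 0 < φ v) : 0 < φ (p v) := by
  have lim : ∀ v, Tendsto (fun n => p v + s n • (v - p v)) atTop (𝓝 (p v)) := fun v => by
    simpa using (hs.smul_const (v - p v)).const_add (p v)
  have lim' : ∀ v, Tendsto (fun n => φ (p v + s n • (v - p v))) atTop (𝓝 (φ (p v))) := fun v =>
    (φ.continuous_of_finiteDimensional.tendsto _).comp (lim v)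
  have mem : ∀ n, ∀ v ∈ cone Ω, p v + s n • (v - p v) ∈ cone Ω := fun n v hv => by
    obtain ⟨A, a, c, hc, b⟩ := hA n
    rw [← b]; exact cone_smul (hi.cone a hv) hc
  have h1 : ∀ v ∈ cone Ω, ∀ w ∈ cone Ω, 0 < φ v → 0 < φ w → 0 ≤ φ (p v) * φ (p w) := by
    intro v hv w hw pv pw
    refine ge_of_tendsto' ((lim' v).mul (lim' w)) fun n => ?_
    obtain ⟨A, a, c, hc, b⟩ := hA n
    rw [← b, ← b, φ.map_smul c, φ.map_smul c, smul_eq_mul, smul_eq_mul]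
    nlinarith [mul_pos (mul_self_pos.2 hc) (sign_lemma h hi a hv hw pv pw)]
  have h2 : ∀ v ∈ cone Ω, p v ≠ 0 → φ (p v) ≠ 0 := fun v hv h0 =>
    h.1 _ h0 (mem_closure_of_tendsto (tendsto_mk (fun n => (mem n v hv).1) h0 (lim v))
      (Eventually.of_forall fun n => (mem n v hv).2))
  have h3 : φ (p v) ≠ 0 := by
    intro h0
    have h4 : p v = 0 := by by_contra h4; exact h2 v hv h4 h0
    obtain ⟨ε, hε, ⟨a1, a2⟩, b1, b2⟩ := perturb (O := cone Ω ∩ {v | 0 < φ v})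
      ((isOpen_iff.1 ho).inter (isOpen_lt continuous_const φ.continuous_of_finiteDimensional))
      ⟨hv, pv⟩ e
    have c1 := h1 _ a1 _ b1 a2 b2
    have c2 := h2 _ a1 (by simp [h4, hpe, hε.ne', he])
    simp only [map_add, map_sub, map_smul, h4, hpe, zero_add, zero_sub, map_neg,
      smul_eq_mul] at c1 c2
    nlinarith [mul_self_pos.2 c2]
  by_contra hc
  have h4 : φ (p v) < 0 := lt_of_le_of_ne (not_lt.1 hc) h3
  obtain ⟨n, hn⟩ := ((lim' v).eventually (gt_mem_nhds h4)).exists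
  have c1 := h1 v hv _ (cone_smul (mem n v hv) (c := -1) (by norm_num)) pv
    (by rw [map_smul, smul_eq_mul]; linarith)
  simp only [map_add, map_sub, map_smul, hp, sub_self, smul_zero, add_zero, smul_eq_mul] at c1
  nlinarith [mul_self_pos.2 h3]

theorem acc {v x y : Fin d → ℝ} (hv : v ≠ 0) (hx : x ≠ 0) (q : (Fin d → ℝ) →ₗ[ℝ] (Fin d → ℝ))
    (qx : q x = 0) (qy : q y ≠ 0) {s : ℕ → ℝ} (hs : Tendsto s atTop (𝓝 0)) (hs0 : ∀ n, s n ≠ 0)
    (hA : ∀ n, ∃ A : GL (Fin d) ℝ, ProjGenLinGroup.mk A ∈ Γ ∧ ∃ c : ℝ, c ≠ 0 ∧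
      c • A • v = x + s n • y) :
    AccPt (mk ℝ x hx) (𝓟 (MulAction.orbit Γ (mk ℝ v hv))) := by
  have h0 : ∀ n, x + s n • y ≠ 0 := fun n => by
    obtain ⟨A, -, c, hc, b⟩ := hA n
    rw [← b]; exact smul_ne_zero hc ((smul_ne_zero_iff_ne A).2 hv)
  have lim : Tendsto (fun n => x + s n • y) atTop (𝓝 x) := by
    simpa using (hs.smul_const y).const_add x
  rw [accPt_iff_frequently]
  refine (tendsto_mk h0 hx lim).frequently (Frequently.of_forall fun n => ⟨fun e => ?_, ?_⟩)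
  · obtain ⟨c, hc⟩ := (mk_eq_mk_iff' ℝ _ _ _ _).1 e
    have := congrArg q hc
    simp only [map_add, map_smul, qx, smul_zero, zero_add] at this
    exact smul_ne_zero (hs0 n) qy this.symm
  · obtain ⟨A, a, c, hc, b⟩ := hA n
    refine ⟨⟨_, a⟩, ?_⟩
    change mk ℝ (A • v) _ = _
    simp only [← b]
    exact (mk_smul _ hc).symm

theorem mem_hull {Λ : Set (Proj d)} {x y : Fin d → ℝ} (hx : x ∈ cone Λ) (hy : y ∈ cone Λ)
    (px : 0 < φ x) (py : 0 < φ y) (h : x + y ≠ 0) (hΩ : mk ℝ (x + y) h ∈ Ω) :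
    mk ℝ (x + y) h ∈ hullIn φ Ω Λ := by
  have hs : 0 < φ x + φ y := by linarith
  have := (convex_convexHull ℝ (chart φ Λ)) (subset_convexHull ℝ _ (mem_chart hx px.ne'))
    (subset_convexHull ℝ _ (mem_chart hy py.ne')) (show 0 ≤ φ x / (φ x + φ y) by positivity)
    (show 0 ≤ φ y / (φ x + φ y) by positivity) (by field_simp)
  have e : (φ x / (φ x + φ y)) • (φ x)⁻¹ • x + (φ y / (φ x + φ y)) • (φ y)⁻¹ • y =
      (φ x + φ y)⁻¹ • (x + y) := by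
    rw [smul_smul, smul_smul, smul_add]
    congr 2 <;> field_simp
  rw [e] at this
  exact ⟨hΩ, _, this, _, mk_smul h (inv_ne_zero hs.ne')⟩

theorem perturb_sq {O : Set (Fin d → ℝ)} (hO : IsOpen O) {v : Fin d → ℝ} (hv : v ∈ O) (j : Fin d) :
    ∃ w ∈ O, (∀ i, i ≠ j → w i = v i) ∧ v j ^ 2 < w j ^ 2 := by
  obtain ⟨ε, hε, a, b⟩ := perturb hO hv (Pi.single j 1)
  rcases le_total 0 (v j) with c | c
  · exact ⟨_, a, fun i hi => by simp [hi], by simp; nlinarith⟩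
  · exact ⟨_, b, fun i hi => by simp [hi], by simp; nlinarith⟩

/-- squared sine of the slope -/
noncomputable def ff (x y : ℝ) : ℝ := y ^ 2 / (x ^ 2 + y ^ 2)

theorem ff_smul {c c' : ℝ} (hc : c ≠ 0) (h : c' ^ 2 = c ^ 2) (x y : ℝ) :
    ff (c * x) (c' * y) = ff x y := by
  unfold ff
  rw [mul_pow, mul_pow, h, ← mul_add, mul_div_mul_left _ _ (pow_ne_zero 2 hc)]

theorem ff_lt {x y y' : ℝ} (hx : x ≠ 0) (h : y ^ 2 < y' ^ 2) : ff x y < ff x y' := by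
  unfold ff
  have := pow_pos (abs_pos.2 hx) 2
  rw [sq_abs] at this
  rw [div_lt_div_iff₀ (by positivity) (by positivity)]
  nlinarith

theorem max_zero {O : Set (Fin d → ℝ)} (hO : IsOpen O) {i j k l : Fin d} (h1 : i ≠ j) (h2 : k ≠ j)
    (h3 : l ≠ j) {v : Fin d → ℝ} (hv : v ∈ O)
    (h : ∀ w ∈ O, ff (w i) (w j) + ff (w k) (w l) ≤ ff (v i) (v j) + ff (v k) (v l)) : v i = 0 := by
  by_contra h0
  obtain ⟨w, a, b, c⟩ := perturb_sq hO hv j
  have := h w a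
  rw [b i h1, b k h2, b l h3] at this
  linarith [ff_lt h0 c]

end Pool.Agent.H652Z.CC
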