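import Pool.Agent.H652Z.CC.Dyn

/-!
A two-parameter family of representations of `D∞ × ℤ/2` in `PGL(4, ℝ)`.
-/

namespace Pool.Agent.H652Z.CC

open Projectivization Filter Topology Matrix Real DihedralGroup

/-- the group `D∞ × ℤ/2` -/
abbrev G : Type := DihedralGroup 0 × ℤˣ

/-- integers as reals -/
noncomputable def zc : ZMod 0 →+* ℝ := ZMod.castHom (dvd_refl 0) ℝ

/-- the matrices -/
noncomputable def Dm (a b : ℝ) : G → Matrix (Fin 4) (Fin 4) ℝ
  | (r i, ε) => !![exp (zc i * a), 0, 0, 0; 0, exp (-(zc i * a)), 0, 0;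
      0, 0, (ε : ℤ) * exp (zc i * b), 0; 0, 0, 0, (ε : ℤ) * exp (-(zc i * b))]
  | (sr i, ε) => !![0, exp (-(zc i * a)), 0, 0; exp (zc i * a), 0, 0, 0;
      0, 0, 0, (ε : ℤ) * exp (-(zc i * b)); 0, 0, (ε : ℤ) * exp (zc i * b), 0]

/-- the linear representation -/
noncomputable def Dh (a b : ℝ) : G →* Matrix (Fin 4) (Fin 4) ℝ where
  toFun := Dm a b
  map_one' := by
    change Dm a b (r 0, 1) = 1
    ext i j
    fin_cases i <;> fin_cases j <;> simp [Dm]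
  map_mul' := by
    rintro ⟨i | i, ε⟩ ⟨j | j, ε'⟩ <;> ext k l <;> fin_cases k <;> fin_cases l <;>
      simp [Dm, Matrix.mul_apply, Fin.sum_univ_four, sub_eq_add_neg, add_mul, exp_add] <;> ring

/-- the representation in `GL(4, ℝ)` -/
noncomputable def Dg (a b : ℝ) : G →* GL (Fin 4) ℝ := (Dh a b).toHomUnits

theorem Dg_coe (a b : ℝ) (g : G) : (Dg a b g : Matrix (Fin 4) (Fin 4) ℝ) = Dm a b g := rfl

theorem Dg_r (a b : ℝ) (i : ZMod 0) (ε : ℤˣ) (v : Fin 4 → ℝ) : Dg a b (r i, ε) • v =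
    ![exp (zc i * a) * v 0, exp (-(zc i * a)) * v 1, (ε : ℤ) * exp (zc i * b) * v 2,
      (ε : ℤ) * exp (-(zc i * b)) * v 3] := by
  rw [gl_smul, Dg_coe]
  ext k
  fin_cases k <;> simp [Dm, Matrix.mulVec, dotProduct, Fin.sum_univ_four]

theorem Dg_sr (a b : ℝ) (i : ZMod 0) (ε : ℤˣ) (v : Fin 4 → ℝ) : Dg a b (sr i, ε) • v =
    ![exp (-(zc i * a)) * v 1, exp (zc i * a) * v 0, (ε : ℤ) * exp (-(zc i * b)) * v 3,
      (ε : ℤ) * exp (zc i * b) * v 2] := by
  rw [gl_smul, Dg_coe]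
  ext k
  fin_cases k <;> simp [Dm, Matrix.mulVec, dotProduct, Fin.sum_univ_four]

/-- the projective representation, conjugated by `P` -/
noncomputable def rho (a b : ℝ) (P : GL (Fin 4) ℝ) : G →* PGLR 4 :=
  ProjGenLinGroup.mk.comp ((MulAut.conj P).toMonoidHom.comp (Dg a b))

theorem rho_apply (a b : ℝ) (P : GL (Fin 4) ℝ) (g : G) :
    rho a b P g = ProjGenLinGroup.mk (P * Dg a b g * P⁻¹) := rfl

theorem rho_one (a b : ℝ) (g : G) : rho a b 1 g = ProjGenLinGroup.mk (Dg a b g) := by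
  simp [rho_apply]

theorem abs_eps (ε : ℤˣ) : |((ε : ℤ) : ℝ)| = 1 := by
  rcases Int.units_eq_one_or ε with rfl | rfl <;> simp

theorem zc_int (i : ZMod 0) : ∃ n : ℤ, i = n ∧ zc i = n := by
  obtain ⟨n, rfl⟩ := ZMod.intCast_surjective i
  exact ⟨n, rfl, map_intCast zc n⟩

theorem mk_eq {A B : GL (Fin 4) ℝ} (h : ProjGenLinGroup.mk A = ProjGenLinGroup.mk B) :
    ∃ c : ℝ, c ≠ 0 ∧ (B : Matrix (Fin 4) (Fin 4) ℝ) = c • (A : Matrix (Fin 4) (Fin 4) ℝ) := by
  obtain ⟨u, rfl⟩ := ProjGenLinGroup.mk_eq_mk_iff.1 h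
  refine ⟨u, u.ne_zero, ?_⟩
  rw [Units.val_mul, GeneralLinearGroup.coe_scalar]
  exact (Matrix.smul_eq_mul_diagonal _ _).symm

theorem mk_eq' {A B : GL (Fin 4) ℝ} {c : ℝ} (hc : c ≠ 0)
    (h : (B : Matrix (Fin 4) (Fin 4) ℝ) = c • (A : Matrix (Fin 4) (Fin 4) ℝ)) :
    ProjGenLinGroup.mk A = ProjGenLinGroup.mk B := by
  refine ProjGenLinGroup.mk_eq_mk_iff.2 ⟨Units.mk0 c hc, Units.ext ?_⟩
  rw [Units.val_mul, GeneralLinearGroup.coe_scalar, h]
  exact (Matrix.smul_eq_mul_diagonal _ _).symm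

/-- a neighbourhood of the identity -/
def W0 (a : ℝ) (B : Matrix (Fin 4) (Fin 4) ℝ) : Prop :=
  0 < B 0 0 * B 2 2 ∧ B 0 0 ^ 2 < exp a * (B 0 0 * B 1 1) ∧ B 1 1 ^ 2 < exp a * (B 0 0 * B 1 1)

theorem eq_one_of_W0 {a b c : ℝ} (ha : 0 < a) (hc : c ≠ 0) {g : G} (h : W0 a (c • Dm a b g)) :
    g = 1 := by
  have hc2 : 0 < c ^ 2 := by positivity
  obtain ⟨i | i, ε⟩ := g
  · obtain ⟨h1, h2, h3⟩ := h
    simp only [Dm, Matrix.smul_apply, of_apply, cons_val', cons_val_zero, cons_val_fin_one, cons_val_one,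
      cons_val, smul_eq_mul] at h1 h2 h3
    have e0 : c * exp (zc i * a) * (c * exp (-(zc i * a))) = c ^ 2 := by
      rw [Real.exp_neg]; field_simp
    rw [e0, mul_pow, mul_comm, mul_lt_mul_iff_left₀ hc2, sq, ← exp_add, exp_lt_exp] at h2 h3
    obtain ⟨n, hi, hn⟩ := zc_int i
    rw [hn] at h2 h3
    have a1 : (2 * n : ℝ) < 1 := by nlinarith
    have a2 : (-1 : ℝ) < 2 * n := by nlinarith
    have a3 : 2 * n < 1 := by exact_mod_cast a1
    have a4 : -1 < 2 * n := by exact_mod_cast a2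
    obtain rfl : n = 0 := by omega
    obtain rfl : i = 0 := hi
    rcases Int.units_eq_one_or ε with rfl | rfl
    · rfl
    · simp at h1
      nlinarith
  · simp [W0, Dm] at h

theorem W0_one {a : ℝ} (ha : 0 < a) : W0 a 1 := by
  simp [W0, ha]

theorem rho_W0 {a b : ℝ} (ha : 0 < a) {P A : GL (Fin 4) ℝ} {g : G}
    (h : rho a b P g = ProjGenLinGroup.mk A) (hA : W0 a (P⁻¹ * A * P : GL (Fin 4) ℝ)) : g = 1 := by
  have h1 : ProjGenLinGroup.mk (Dg a b g) = ProjGenLinGroup.mk (P⁻¹ * A * P) := by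
    simp [← h, rho_apply, mul_assoc]
  obtain ⟨c, hc, e⟩ := mk_eq h1
  rw [e] at hA
  exact eq_one_of_W0 ha hc hA

theorem rho_inj {a : ℝ} (ha : 0 < a) (b : ℝ) (P : GL (Fin 4) ℝ) : Function.Injective (rho a b P) :=
  (injective_iff_map_eq_one _).2 fun g hg =>
    rho_W0 (A := 1) ha hg (by simpa using W0_one ha)

theorem rho_infinite {a : ℝ} (ha : 0 < a) (b : ℝ) (P : GL (Fin 4) ℝ) :
    Infinite (rho a b P).range :=
  Infinite.of_injective _ (MonoidHom.ofInjective (rho_inj ha b P)).injective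

theorem rho_discrete {a : ℝ} (ha : 0 < a) (b : ℝ) (P : GL (Fin 4) ℝ) :
    DiscreteTopology (rho a b P).range := by
  have := topGroup (d := 4)
  refine discreteTopology_of_isOpen_singleton_one ?_
  have ho : IsOpen {A : GL (Fin 4) ℝ | W0 a (P⁻¹ * A * P : GL (Fin 4) ℝ)} := by
    have hc : ∀ i j, Continuous fun A : GL (Fin 4) ℝ =>
        ((P⁻¹ * A * P : GL (Fin 4) ℝ) : Matrix (Fin 4) (Fin 4) ℝ) i j := fun i j =>
      (Units.continuous_val.comp ((continuous_id.const_mul _).mul_const _)).matrix_elem i j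
    exact (isOpen_lt continuous_const ((hc 0 0).mul (hc 2 2))).inter
      ((isOpen_lt ((hc 0 0).pow 2) (((hc 0 0).mul (hc 1 1)).const_mul _)).inter
        (isOpen_lt ((hc 1 1).pow 2) (((hc 0 0).mul (hc 1 1)).const_mul _)))
  refine isOpen_induced_iff.2 ⟨_, isOpenMap_mk _ ho, ?_⟩
  ext ⟨_, g, rfl⟩
  constructor
  · rintro ⟨A, hA, e⟩
    obtain rfl := rho_W0 ha e.symm hA
    exact Subtype.ext (map_one _)
  · intro h
    exact ⟨1, by simpa using W0_one ha, (congrArg Subtype.val h).symm⟩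

/-- the invariant cone -/
def KK (a b : ℝ) : Set (Fin 4 → ℝ) := {v | 0 ≤ v 0 ∧ 0 ≤ v 1 ∧ ∀ n : ℤ,
  |v 2| * exp (n * b) + |v 3| * exp (-(n * b)) ≤ v 0 * exp (n * a) + v 1 * exp (-(n * a))}

/-- the chart -/
def φ0 : (Fin 4 → ℝ) →ₗ[ℝ] ℝ :=
  LinearMap.proj (R := ℝ) (φ := fun _ => ℝ) (0 : Fin 4) +
    LinearMap.proj (R := ℝ) (φ := fun _ => ℝ) (1 : Fin 4)

/-- the invariant plane -/
def ZZ : Submodule ℝ (Fin 4 → ℝ) :=
  LinearMap.ker (LinearMap.proj (φ := fun _ => ℝ) 2) ⊓ LinearMap.ker (LinearMap.proj (φ := fun _ => ℝ) 3)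

theorem mem_ZZ {v : Fin 4 → ℝ} : v ∈ ZZ ↔ v 2 = 0 ∧ v 3 = 0 := Iff.rfl

theorem φ0_apply (v : Fin 4 → ℝ) : φ0 v = v 0 + v 1 := rfl

theorem int_KK {a b : ℝ} {v : Fin 4 → ℝ} (h : v ∈ interior (KK a b)) : 0 < v 0 ∧ 0 < v 1 := by
  obtain ⟨ε, h1, -, h2⟩ := perturb isOpen_interior h ![1, 1, 0, 0]
  obtain ⟨h3, h4, -⟩ := interior_subset h2
  simp at h3 h4
  constructor <;> linarith

theorem mem_int_KK {a b : ℝ} (hb : 0 ≤ b) (hab : b ≤ a) {v : Fin 4 → ℝ} (h0 : 0 < v 0)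
    (h1 : 0 < v 1) (h : v ∈ ZZ) : v ∈ interior (KK a b) := by
  refine mem_interior.2 ⟨{v | |v 2| + |v 3| < v 0} ∩ {v | |v 2| + |v 3| < v 1}, ?_,
    (isOpen_lt (by fun_prop) (by fun_prop)).inter (isOpen_lt (by fun_prop) (by fun_prop)),
    by simp [h0, h1, mem_ZZ.1 h]⟩
  rintro v ⟨a1, a2⟩
  simp only [Set.mem_ofPred_eq] at a1 a2
  have p2 := abs_nonneg (v 2)
  have p3 := abs_nonneg (v 3)
  refine ⟨by linarith, by linarith, fun n => ?_⟩
  have q1 := exp_pos (n * a)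
  have q2 := exp_pos (-(n * a))
  rcases le_total (0 : ℝ) n with c | c
  · have e1 : exp (n * b) ≤ exp (n * a) := exp_le_exp.2 (by nlinarith)
    have e2 : exp (-(n * b)) ≤ exp (n * a) := exp_le_exp.2 (by nlinarith)
    nlinarith [mul_le_mul_of_nonneg_left e1 p2, mul_le_mul_of_nonneg_left e2 p3]
  · have e1 : exp (n * b) ≤ exp (-(n * a)) := exp_le_exp.2 (by nlinarith)
    have e2 : exp (-(n * b)) ≤ exp (-(n * a)) := exp_le_exp.2 (by nlinarith)
    nlinarith [mul_le_mul_of_nonneg_left e1 p2, mul_le_mul_of_nonneg_left e2 p3]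

theorem coneData {a b : ℝ} (ha : 0 < a) (hb : 0 ≤ b) (hab : b ≤ a) :
    ConeData (rho a b 1).range φ0 (KK a b) ZZ
      ((fun t => ![t, 1, 0, 0]) '' Set.Icc 1 (exp (2 * a))) where
  closed := by
    refine (isClosed_le continuous_const (continuous_apply 0)).inter
      ((isClosed_le continuous_const (continuous_apply 1)).inter ?_)
    change IsClosed {v : Fin 4 → ℝ | ∀ n : ℤ, _}
    rw [Set.ofPred_forall]
    exact isClosed_iInter fun n => isClosed_le (by fun_prop) (by fun_prop)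
  convex := by
    rintro v ⟨a1, a2, a3⟩ w ⟨b1, b2, b3⟩ s t hs ht -
    refine ⟨by simp; positivity, by simp; positivity, fun n => ?_⟩
    have c2 : |(s • v + t • w) 2| ≤ s * |v 2| + t * |w 2| := by
      simpa [abs_mul, abs_of_nonneg hs, abs_of_nonneg ht] using abs_add_le (s * v 2) (t * w 2)
    have c3 : |(s • v + t • w) 3| ≤ s * |v 3| + t * |w 3| := by
      simpa [abs_mul, abs_of_nonneg hs, abs_of_nonneg ht] using abs_add_le (s * v 3) (t * w 3)
    have d2 := mul_le_mul_of_nonneg_right c2 (exp_pos (n * b)).le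
    have d3 := mul_le_mul_of_nonneg_right c3 (exp_pos (-(n * b))).le
    have e1 := mul_le_mul_of_nonneg_left (a3 n) hs
    have e2 := mul_le_mul_of_nonneg_left (b3 n) ht
    simp only [Pi.add_apply, Pi.smul_apply, smul_eq_mul] at d2 d3 ⊢
    linarith
  smul := by
    rintro c hc v ⟨a1, a2, a3⟩
    refine ⟨by simp; positivity, by simp; positivity, fun n => ?_⟩
    have e1 := mul_le_mul_of_nonneg_left (a3 n) hc.le
    simp only [Pi.smul_apply, smul_eq_mul, abs_mul, abs_of_pos hc]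
    linarith
  pos := by
    rintro v ⟨a1, a2, a3⟩ h0
    rw [φ0_apply]
    by_contra hc
    have := a3 0
    simp only [Int.cast_zero, zero_mul, neg_zero, exp_zero, mul_one] at this
    have p2 := abs_nonneg (v 2)
    have p3 := abs_nonneg (v 3)
    refine h0 (funext fun i => ?_)
    fin_cases i
    · change v 0 = 0; linarith
    · change v 1 = 0; linarith
    · change v 2 = 0; exact abs_eq_zero.1 (by linarith)
    · change v 3 = 0; exact abs_eq_zero.1 (by linarith)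
  lift := by
    rintro _ ⟨g, rfl⟩
    refine ⟨Dg a b g, (rho_one a b g).symm, ?_, ?_⟩
    · rintro v ⟨a1, a2, a3⟩
      obtain ⟨i | i, ε⟩ := g
      · obtain ⟨m, -, hm⟩ := zc_int i
        rw [Dg_r, hm]
        refine ⟨by simp; positivity, by simp; positivity, fun n => ?_⟩
        have := a3 (m + n)
        simp only [cons_val, cons_val_zero, cons_val_one, abs_mul, abs_eps, abs_exp, Int.cast_add,
          add_mul, neg_add, exp_add] at this ⊢
        linarith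
      · obtain ⟨m, -, hm⟩ := zc_int i
        rw [Dg_sr, hm]
        refine ⟨by simp; positivity, by simp; positivity, fun n => ?_⟩
        have := a3 (m + -n)
        simp only [cons_val, cons_val_zero, cons_val_one, abs_mul, abs_eps, abs_exp, Int.cast_add,
          Int.cast_neg, neg_mul, neg_neg, add_mul, neg_add, exp_add] at this ⊢
        linarith
    · rintro v hv
      obtain ⟨a1, a2⟩ := mem_ZZ.1 hv
      obtain ⟨i | i, ε⟩ := g
      · rw [Dg_r, mem_ZZ]; simp [a1, a2]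
      · rw [Dg_sr, mem_ZZ]; simp [a1, a2]
  cpt := isCompact_Icc.image (by fun_prop)
  ne := ⟨_, 1, ⟨le_rfl, one_le_exp (by linarith)⟩, rfl⟩
  ne0 := by
    rintro _ ⟨t, -, rfl⟩ h
    simpa using congrFun h 1
  sub := by
    rintro _ ⟨t, ht, rfl⟩
    have : ![t, 1, 0, 0] ∈ ZZ := by simp [mem_ZZ]
    exact ⟨mem_int_KK hb hab (by simpa using zero_lt_one.trans_le ht.1) (by simp) this, this⟩
  cov := by
    intro v hv hz
    obtain ⟨p0, p1⟩ := int_KK hv
    obtain ⟨z2, z3⟩ := mem_ZZ.1 hz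
    obtain ⟨n, hn⟩ : ∃ n, n = ⌈log (v 1 / v 0) / (2 * a)⌉ := ⟨_, rfl⟩
    have h1 : log (v 1 / v 0) ≤ n * (2 * a) := by
      rw [← div_le_iff₀ (by linarith), hn]; exact Int.le_ceil _
    have h2 : n * (2 * a) ≤ log (v 1 / v 0) + 2 * a := by
      have := (Int.ceil_lt_add_one (log (v 1 / v 0) / (2 * a))).le
      rw [← hn, div_add_one (by linarith), le_div_iff₀ (by linarith)] at this
      exact this
    have h3 := exp_le_exp.2 h1
    have h4 := exp_le_exp.2 h2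
    rw [exp_log (by positivity), div_le_iff₀ p0] at h3
    rw [exp_add, exp_log (by positivity), div_mul_eq_mul_div, le_div_iff₀ p0] at h4
    refine ⟨Dg a b (r (n : ZMod 0), 1), ⟨_, rho_one a b _⟩, exp (n * a) / v 1, by positivity,
      exp (n * (2 * a)) * v 0 / v 1, ⟨by rwa [one_le_div p1], by rwa [div_le_iff₀ p1, mul_comm _ (v 1)]⟩,
      ?_⟩
    rw [Dg_r, show zc (n : ZMod 0) = n from map_intCast zc n,
      show (n : ℝ) * (2 * a) = n * a + n * a by ring, exp_add, Real.exp_neg]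
    ext i
    fin_cases i <;> simp [z2, z3] <;> field_simp

theorem rho_naive {a b : ℝ} (ha : 0 < a) (hb : 0 ≤ b) (hab : b ≤ a) (P : GL (Fin 4) ℝ) :
    NaiveCC (rho a b P).range := by
  refine ((coneData ha hb hab).conj P fun A => ?_).naive (rho_infinite ha b P)
    (rho_discrete ha b P)
  constructor
  · rintro ⟨g, hg⟩
    exact ⟨g, by simp [rho_apply, ← rho_one, hg]⟩
  · rintro ⟨g, hg⟩
    exact ⟨g, by simpa [rho_apply] using hg⟩

theorem lim_s {a : ℝ} (ha : 0 < a) : Tendsto (fun n : ℕ => exp (-(2 * a)) ^ n) atTop (𝓝 0) :=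
  tendsto_pow_atTop_nhds_zero_of_lt_one (exp_pos _).le (Real.exp_lt_one_iff.2 (by linarith))

/-- projection to the attracting plane -/
def pT : (Fin 4 → ℝ) →ₗ[ℝ] (Fin 4 → ℝ) := Matrix.mulVecLin (Matrix.diagonal ![1, 0, 1, 0])

/-- projection to the repelling plane -/
def pB : (Fin 4 → ℝ) →ₗ[ℝ] (Fin 4 → ℝ) := Matrix.mulVecLin (Matrix.diagonal ![0, 1, 0, 1])

theorem pT_apply (v : Fin 4 → ℝ) : pT v = ![v 0, 0, v 2, 0] := by
  ext i; fin_cases i <;> simp [pT, Matrix.mulVec_diagonal]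

theorem pB_apply (v : Fin 4 → ℝ) : pB v = ![0, v 1, 0, v 3] := by
  ext i; fin_cases i <;> simp [pB, Matrix.mulVec_diagonal]

theorem pT_add (v : Fin 4 → ℝ) : pT v + pB v = v := by
  ext i; fin_cases i <;> simp [pT_apply, pB_apply]

theorem dynT (a b : ℝ) (n : ℕ) (v : Fin 4 → ℝ) (h : b = a ∨ v ∈ ZZ) :
    exp (-(n * a)) • Dg a b (r n, 1) • v = pT v + exp (-(2 * a)) ^ n • pB v := by
  rw [Dg_r, map_natCast, ← exp_nat_mul, show (n : ℝ) * -(2 * a) = -(n * a) + -(n * a) by ring,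
    exp_add, pT_apply, pB_apply, Real.exp_neg]
  ext i
  rcases h with rfl | h
  · fin_cases i <;> simp [Real.exp_neg] <;> field_simp
  · fin_cases i <;> simp [(mem_ZZ.1 h).1, (mem_ZZ.1 h).2]
    field_simp

theorem dynB (a b : ℝ) (n : ℕ) (v : Fin 4 → ℝ) (h : b = a ∨ v ∈ ZZ) :
    exp (-(n * a)) • Dg a b (r (-n), 1) • v = pB v + exp (-(2 * a)) ^ n • pT v := by
  rw [Dg_r, map_neg, map_natCast, ← exp_nat_mul,
    show (n : ℝ) * -(2 * a) = -(n * a) + -(n * a) by ring, exp_add, pT_apply, pB_apply]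
  ext i
  rcases h with rfl | h
  · fin_cases i <;> simp [Real.exp_neg] <;> field_simp
  · fin_cases i <;> simp [(mem_ZZ.1 h).1, (mem_ZZ.1 h).2, Real.exp_neg]
    field_simp

theorem hull_mem {a b : ℝ} (ha : 0 < a) {Ω : Set (Proj 4)} {φ : (Fin 4 → ℝ) →ₗ[ℝ] ℝ}
    {v : Fin 4 → ℝ} (h0 : v ≠ 0) (hv : mk ℝ v h0 ∈ Ω) (h : b = a ∨ v ∈ ZZ) (p1 : 0 < φ (pT v))
    (p2 : 0 < φ (pB v)) : mk ℝ v h0 ∈ hullIn φ Ω (orbLimit (rho a b 1).range Ω) := by
  have n1 : pT v ≠ 0 := fun e => by simp [e] at p1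
  have n2 : pB v ≠ 0 := fun e => by simp [e] at p2
  have s0 : ∀ n : ℕ, exp (-(2 * a)) ^ n ≠ 0 := fun n => by positivity
  have a1 := acc (Γ := (rho a b 1).range) h0 n1 pB (by simp [pT_apply, pB_apply])
    (by simpa [pB_apply] using n2) (lim_s ha) s0 fun n =>
      ⟨_, ⟨_, rho_one a b _⟩, _, (exp_pos _).ne', dynT a b n v h⟩
  have a2 := acc (Γ := (rho a b 1).range) h0 n2 pT (by simp [pT_apply, pB_apply])
    (by simpa [pT_apply] using n1) (lim_s ha) s0 fun n =>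
      ⟨_, ⟨_, rho_one a b _⟩, _, (exp_pos _).ne', dynB a b n v h⟩
  have := mem_hull (Ω := Ω) (Λ := orbLimit (rho a b 1).range Ω) ⟨n1, _, hv, a1⟩ ⟨n2, _, hv, a2⟩
    p1 p2 (by rwa [pT_add]) (by simpa only [pT_add] using hv)
  simpa only [pT_add] using this

theorem not_cc {a : ℝ} (ha : 0 < a) : ¬ ConvexCC (rho a a 1).range := by
  rintro ⟨-, -, φ, Ω, ho, hn, hp, hi, -, hc⟩
  have eB : ∀ v, v - pT v = pB v := fun v => by rw [sub_eq_iff_eq_add', pT_add]
  have eT : ∀ v, v - pB v = pT v := fun v => by rw [sub_eq_iff_eq_add, pT_add]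
  have p1 : ∀ v ∈ cone Ω, 0 < φ v → 0 < φ (pT v) := fun v hv pv =>
    pos_part ho hp hi pT (fun v => by simp [pT_apply]) (e := ![1, 0, 0, 0]) (by simp)
      (by simp [pT_apply]) (lim_s ha) (fun n => ⟨_, ⟨_, rho_one a a _⟩, _, (exp_pos _).ne',
        fun v => by rw [eB]; exact dynT a a n v (Or.inl rfl)⟩) hv pv
  have p2 : ∀ v ∈ cone Ω, 0 < φ v → 0 < φ (pB v) := fun v hv pv =>
    pos_part ho hp hi pB (fun v => by simp [pB_apply]) (e := ![0, 1, 0, 0]) (by simp)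
      (by simp [pB_apply]) (lim_s ha) (fun n => ⟨_, ⟨_, rho_one a a _⟩, _, (exp_pos _).ne',
        fun v => by rw [eT]; exact dynB a a n v (Or.inl rfl)⟩) hv pv
  have nrm : ∀ v ∈ cone Ω, φ v • v ∈ cone Ω ∧ 0 < φ (φ v • v) := fun v hv =>
    ⟨cone_smul hv (hp.ne hv), by rw [map_smul]; exact mul_self_pos.2 (hp.ne hv)⟩
  have e : hullIn φ Ω (orbLimit (rho a a 1).range Ω) = Ω := by
    refine Set.Subset.antisymm (fun _ h => h.1) fun x hx => ?_
    induction x using Projectivization.ind with | _ v hv =>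
    obtain ⟨a1, a2⟩ := nrm v ⟨hv, hx⟩
    rw [← mk_smul hv (hp.ne ⟨hv, hx⟩)]
    exact hull_mem ha _ a1.2 (Or.inl rfl) (p1 _ a1 a2) (p2 _ a1 a2)
  rw [e] at hc
  have sq : ∀ x y : ℝ, x ^ 2 + y ^ 2 = 0 → x = 0 ∧ y = 0 := fun x y h => by
    constructor <;> nlinarith [sq_nonneg x, sq_nonneg y]
  have n1 : ∀ v ∈ cone Ω, v 0 ^ 2 + v 2 ^ 2 ≠ 0 := fun v hv h => by
    have := p1 _ (nrm v hv).1 (nrm v hv).2
    have e : pT (φ v • v) = 0 := by simp [pT_apply, (sq _ _ h).1, (sq _ _ h).2]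
    simp [e] at this
  have n2 : ∀ v ∈ cone Ω, v 1 ^ 2 + v 3 ^ 2 ≠ 0 := fun v hv h => by
    have := p2 _ (nrm v hv).1 (nrm v hv).2
    have e : pB (φ v • v) = 0 := by simp [pB_apply, (sq _ _ h).1, (sq _ _ h).2]
    simp [e] at this
  have eps : ∀ (ε : ℤˣ) (x : ℝ), (((ε : ℤ) : ℝ) * x) ^ 2 = x ^ 2 := fun ε x => by
    rw [mul_pow, ← sq_abs, abs_eps]; simp
  have eps0 : ∀ (ε : ℤˣ) (x : ℝ), ((ε : ℤ) : ℝ) * exp x ≠ 0 := fun ε x =>
    mul_ne_zero (by simp) (exp_pos x).ne'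
  obtain ⟨v, hv, mv⟩ := exists_max hc ho hn hi (fun v => ff (v 0) (v 2) + ff (v 1) (v 3))
    ((ContinuousOn.div (by fun_prop) (by fun_prop) n1).add
      (ContinuousOn.div (by fun_prop) (by fun_prop) n2))
    (fun c hc v => by simp [ff_smul hc rfl]) (by
      rintro _ ⟨g, rfl⟩
      refine ⟨Dg a a g, (rho_one a a g).symm, fun v => ?_⟩
      obtain ⟨i | i, ε⟩ := g
      · simp [Dg_r, ff_smul (exp_pos _).ne' (eps ε _)]
      · simp [Dg_sr, ff_smul (exp_pos _).ne' (eps ε _), add_comm])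
  obtain ⟨w, hw, mw⟩ := exists_max hc ho hn hi (fun v => ff (v 2) (v 0) + ff (v 3) (v 1))
    ((ContinuousOn.div (by fun_prop) (by fun_prop) fun v hv => by rw [add_comm]; exact n1 v hv).add
      (ContinuousOn.div (by fun_prop) (by fun_prop) fun v hv => by rw [add_comm]; exact n2 v hv))
    (fun c hc v => by simp [ff_smul hc rfl]) (by
      rintro _ ⟨g, rfl⟩
      refine ⟨Dg a a g, (rho_one a a g).symm, fun v => ?_⟩
      obtain ⟨i | i, ε⟩ := g
      · simp [Dg_r, ff_smul (eps0 ε _) (eps ε _).symm]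
      · simp [Dg_sr, ff_smul (eps0 ε _) (eps ε _).symm, add_comm])
  have ho' := isOpen_iff.1 ho
  have v0 : v 0 = 0 := max_zero ho' (j := 2) (k := 1) (l := 3) (by decide) (by decide) (by decide)
    hv mv
  have v1 : v 1 = 0 := max_zero ho' (j := 3) (k := 0) (l := 2) (by decide) (by decide) (by decide)
    hv fun u hu => by linarith [mv u hu]
  have w2 : w 2 = 0 := max_zero ho' (j := 0) (k := 3) (l := 1) (by decide) (by decide) (by decide)
    hw mw
  have w3 : w 3 = 0 := max_zero ho' (j := 1) (k := 2) (l := 0) (by decide) (by decide) (by decide)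
    hw fun u hu => by linarith [mw u hu]
  have := sign_lemma hp hi (A := Dg a a (r 0, -1)) ⟨_, rho_one a a _⟩ (nrm v hv).1 (nrm w hw).1
    (nrm v hv).2 (nrm w hw).2
  have e1 : Dg a a (r 0, -1) • φ v • v = -(φ v • v) := by
    rw [Dg_r]; ext i; fin_cases i <;> simp [v0, v1]
  have e2 : Dg a a (r 0, -1) • φ w • w = φ w • w := by
    rw [Dg_r]; ext i; fin_cases i <;> simp [w2, w3]
  rw [e1, e2, map_neg] at this
  nlinarith [mul_pos (nrm v hv).2 (nrm w hw).2]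

theorem fin_idx {a x y M : ℝ} (ha : 0 < a) (hx : 0 < x) (hy : 0 < y) :
    {i : ZMod 0 | exp (zc i * a) * x + exp (-(zc i * a)) * y < M}.Finite := by
  obtain ⟨N, hN⟩ := exists_nat_gt (max (M / (a * x)) (M / (a * y)))
  have h1 : M < N * (a * x) := by
    rw [← div_lt_iff₀ (by positivity)]; exact (le_max_left _ _).trans_lt hN
  have h2 : M < N * (a * y) := by
    rw [← div_lt_iff₀ (by positivity)]; exact (le_max_right _ _).trans_lt hN
  refine ((Set.finite_Icc (-N : ℤ) N).image (fun n : ℤ => (n : ZMod 0))).subset fun i hi => ?_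
  obtain ⟨n, hi', hn⟩ := zc_int i
  replace hi : exp (zc i * a) * x + exp (-(zc i * a)) * y < M := hi
  rw [hn] at hi
  have b1 := mul_le_mul_of_nonneg_right (add_one_le_exp (n * a)) hx.le
  have b2 := mul_le_mul_of_nonneg_right (add_one_le_exp (-(n * a))) hy.le
  have c1 := mul_pos (exp_pos (n * a)) hx
  have c2 := mul_pos (exp_pos (-(n * a))) hy
  have d1 : (n : ℝ) < N := lt_of_mul_lt_mul_right (a := a * x) (by nlinarith) (by positivity)
  have d2 : -(n : ℝ) < N := lt_of_mul_lt_mul_right (a := a * y) (by nlinarith) (by positivity)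
  have f1 : n < N := by exact_mod_cast d1
  have f2 : -n < N := by exact_mod_cast d2
  exact ⟨n, ⟨by omega, by omega⟩, hi'.symm⟩

theorem lim_ZZ {a : ℝ} (ha : 0 < a) {w : Fin 4 → ℝ}
    (h : w ∈ cone (orbLimit (rho a 0 1).range (pr (interior (KK a 0))))) : w ∈ ZZ := by
  obtain ⟨h0, _, ⟨u, hu, u0, rfl⟩, h⟩ := h
  obtain ⟨p0, p1⟩ := int_KK hu
  by_contra hz
  have hm : 0 < |w 2| + |w 3| := by
    by_contra hc
    have p2 := abs_nonneg (w 2)
    have p3 := abs_nonneg (w 3)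
    exact hz (mem_ZZ.2 ⟨abs_eq_zero.1 (by linarith), abs_eq_zero.1 (by linarith)⟩)
  obtain ⟨M, hM⟩ : ∃ M, |w 0| + |w 1| < M * (|w 2| + |w 3|) :=
    ⟨(|w 0| + |w 1|) / (|w 2| + |w 3|) + 1, by rw [add_mul, div_mul_cancel₀ _ hm.ne']; linarith⟩
  have := t1 (d := 4)
  have ho : IsOpen (pr {z : Fin 4 → ℝ | |z 0| + |z 1| < M * (|z 2| + |z 3|)}) :=
    isOpen_pr (isOpen_lt (by fun_prop) (by fun_prop))
  refine Set.Infinite.of_accPt (h.nhds_inter (ho.mem_nhds ⟨w, hM, h0, rfl⟩)) ?_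
  have hf := (fin_idx (M := M * (|u 2| + |u 3|)) ha p0 p1).prod (Set.finite_univ (α := ℤˣ))
  refine ((hf.image fun x => rho a 0 1 (r x.1, x.2) • mk ℝ u u0).union
    (hf.image fun x => rho a 0 1 (sr x.1, x.2) • mk ℝ u u0)).subset ?_
  rintro _ ⟨h1, ⟨_, g, rfl⟩, rfl⟩
  change rho a 0 1 g • mk ℝ u u0 ∈ _ at h1
  rw [rho_one, pgl_mk_smul, mem_pr] at h1
  obtain ⟨c, hc, h1⟩ := h1
  have hc' := abs_pos.2 hc
  obtain ⟨i | i, ε⟩ := g
  · refine Or.inl ⟨(i, ε), ⟨?_, trivial⟩, rfl⟩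
    simp [Dg_r, abs_mul, abs_eps, abs_of_pos p0, abs_of_pos p1] at h1
    exact lt_of_mul_lt_mul_left (a := |c|) (by linarith) hc'.le
  · refine Or.inr ⟨(i, ε), ⟨?_, trivial⟩, rfl⟩
    simp [Dg_sr, abs_mul, abs_eps, abs_of_pos p0, abs_of_pos p1] at h1
    exact lt_of_mul_lt_mul_left (a := |c|) (by linarith) hc'.le

theorem is_cc {a : ℝ} (ha : 0 < a) : ConvexCC (rho a 0 1).range := by
  have h := coneData ha le_rfl ha.le
  have e : hullIn φ0 (pr (interior (KK a 0))) (orbLimit (rho a 0 1).range (pr (interior (KK a 0)))) =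
      pr (interior (KK a 0) ∩ ZZ) := by
    apply Set.Subset.antisymm
    · rintro _ ⟨h1, v, hv, h0, rfl⟩
      have hz : v ∈ ZZ := convexHull_min (fun w hw => lim_ZZ ha hw.2) ZZ.convex hv
      obtain ⟨c, hc, h2⟩ := (mem_pr h0).1 h1
      exact (mem_pr h0).2 ⟨c, hc, h2, ZZ.smul_mem c hz⟩
    · rintro _ ⟨v, hv, h0, rfl⟩
      obtain ⟨p0, p1⟩ := int_KK hv.1
      exact hull_mem ha h0 ⟨v, hv.1, h0, rfl⟩ (Or.inr hv.2) (by simpa [φ0_apply, pT_apply])
        (by simpa [φ0_apply, pB_apply])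
  refine ⟨rho_infinite ha _ _, rho_discrete ha _ _, φ0, pr (interior (KK a 0)),
    isOpen_pr isOpen_interior, h.nonempty.mono (by rintro _ ⟨w, a, b⟩; exact ⟨w, a.1, b⟩), h.pc, h.inv, ?_, ?_⟩
  · rw [e]; exact h.nonempty
  · rw [e]; exact h.cocompact

end Pool.Agent.H652Z.CC
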