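import Pool.Agent.H652Z.CC.Defs

/-!
Cones and their projectivizations.
-/

namespace Pool.Agent.H652Z.CC

open Projectivization Filter Topology Matrix

variable {d : ℕ}

/-- projectivization of a set of vectors -/
def pr (S : Set (Fin d → ℝ)) : Set (Proj d) := {x | ∃ v ∈ S, ∃ h : v ≠ 0, mk ℝ v h = x}

/-- the vectors over a set of projective points -/
def cone (Ω : Set (Proj d)) : Set (Fin d → ℝ) := {v | ∃ h : v ≠ 0, mk ℝ v h ∈ Ω}

theorem isOpen_iff {Ω : Set (Proj d)} : IsOpen Ω ↔ IsOpen (cone Ω) := by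
  have e : cone Ω = Subtype.val '' (mk' ℝ ⁻¹' Ω) := by
    ext v
    exact ⟨fun ⟨h, hv⟩ => ⟨⟨v, h⟩, hv, rfl⟩, fun ⟨⟨w, h⟩, hv, e⟩ => e ▸ ⟨h, hv⟩⟩
  rw [e]
  exact isOpen_coinduced.trans
    (isOpen_ne (x := (0 : Fin d → ℝ))).isOpenEmbedding_subtypeVal.isOpen_iff_image_isOpen

theorem continuous_mk' : Continuous (mk' ℝ : {v : Fin d → ℝ // v ≠ 0} → Proj d) :=
  continuous_coinduced_rng

theorem mk_smul {v : Fin d → ℝ} (h : v ≠ 0) {c : ℝ} (hc : c ≠ 0) :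
    mk ℝ (c • v) (smul_ne_zero hc h) = mk ℝ v h := (mk_eq_mk_iff' ℝ _ _ _ _).2 ⟨c, rfl⟩

theorem cone_smul {Ω : Set (Proj d)} {v : Fin d → ℝ} (h : v ∈ cone Ω) {c : ℝ} (hc : c ≠ 0) :
    c • v ∈ cone Ω := by
  obtain ⟨h0, h⟩ := h
  exact ⟨smul_ne_zero hc h0, by rwa [mk_smul h0 hc]⟩

theorem mem_pr {S : Set (Fin d → ℝ)} {v : Fin d → ℝ} (h : v ≠ 0) :
    mk ℝ v h ∈ pr S ↔ ∃ c : ℝ, c ≠ 0 ∧ c • v ∈ S := by
  constructor
  · rintro ⟨w, hw, h0, e⟩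
    obtain ⟨c, rfl⟩ := (mk_eq_mk_iff' ℝ _ _ _ _).1 e
    exact ⟨c, fun e => h0 (by simp [e]), hw⟩
  · rintro ⟨c, hc, hv⟩
    exact ⟨_, hv, _, mk_smul h hc⟩

theorem isOpen_pr {S : Set (Fin d → ℝ)} (hS : IsOpen S) : IsOpen (pr S) := by
  rw [isOpen_iff]
  have e : cone (pr S) = {v | v ≠ 0} ∩ ⋃ c : {c : ℝ // c ≠ 0}, (fun v => c.1 • v) ⁻¹' S := by
    ext v
    simp only [cone, Set.mem_ofPred_eq, Set.mem_inter_iff, Set.mem_iUnion, Set.mem_preimage]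
    exact ⟨fun ⟨h, hv⟩ => ⟨h, let ⟨c, hc, h2⟩ := (mem_pr h).1 hv; ⟨⟨c, hc⟩, h2⟩⟩,
      fun ⟨h, c, h2⟩ => ⟨h, (mem_pr h).2 ⟨c.1, c.2, h2⟩⟩⟩
  rw [e]
  exact isOpen_ne.inter (isOpen_iUnion fun c => hS.preimage (continuous_const_smul _))

theorem mem_pr_cone {S : Set (Fin d → ℝ)} (hS : ∀ c : ℝ, 0 < c → ∀ v ∈ S, c • v ∈ S)
    {v : Fin d → ℝ} (h : v ≠ 0) : mk ℝ v h ∈ pr S ↔ v ∈ S ∨ -v ∈ S := by
  rw [mem_pr]
  constructor
  · rintro ⟨c, hc, hv⟩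
    rcases lt_or_gt_of_ne hc with a | a
    · refine Or.inr ?_
      have := hS (-c⁻¹) (by simpa using a) _ hv
      rwa [smul_smul, neg_mul, inv_mul_cancel₀ hc, neg_one_smul] at this
    · refine Or.inl ?_
      have := hS c⁻¹ (by simpa using a) _ hv
      rwa [smul_smul, inv_mul_cancel₀ hc, one_smul] at this
  · rintro (a | a)
    · exact ⟨1, one_ne_zero, by simpa using a⟩
    · exact ⟨-1, by norm_num, by simpa using a⟩

theorem isClosed_pr {S : Set (Fin d → ℝ)} (hS : ∀ c : ℝ, 0 < c → ∀ v ∈ S, c • v ∈ S)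
    (h : IsClosed S) : IsClosed (pr S) := by
  rw [← isOpen_compl_iff, isOpen_iff]
  have e : cone (pr S)ᶜ = {v | v ≠ 0} ∩ (S ∪ (fun v => -v) ⁻¹' S)ᶜ := by
    ext v
    exact ⟨fun ⟨h, hv⟩ => ⟨h, fun a => hv ((mem_pr_cone hS h).2 a)⟩,
      fun ⟨h, hv⟩ => ⟨h, fun a => hv ((mem_pr_cone hS h).1 a)⟩⟩
  rw [e]
  exact isOpen_ne.inter (h.union (h.preimage continuous_neg)).isOpen_compl

theorem t1 : T1Space (Proj d) := by
  refine ⟨fun x => ?_⟩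
  induction x using Projectivization.ind with | _ v hv =>
  have e : ({mk ℝ v hv} : Set (Proj d)) = pr (Submodule.span ℝ {v} : Submodule ℝ _) := by
    ext y
    constructor
    · rintro rfl
      exact ⟨v, Submodule.mem_span_singleton_self v, hv, rfl⟩
    · rintro ⟨w, hw, h0, rfl⟩
      exact (mk_eq_mk_iff' ℝ _ _ _ _).2 (Submodule.mem_span_singleton.1 hw)
  rw [e]
  exact isClosed_pr (fun c _ w hw => Submodule.smul_mem _ c hw)
    (Submodule.closed_of_finiteDimensional _)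

theorem isCompact_pr {S : Set (Fin d → ℝ)} (h : IsCompact S) (h0 : ∀ v ∈ S, v ≠ 0) :
    IsCompact (pr S) := by
  have e : pr S = mk' ℝ '' (Subtype.val ⁻¹' S) := by
    ext x
    exact ⟨fun ⟨v, hv, h, e⟩ => ⟨⟨v, h⟩, hv, e⟩, fun ⟨v, hv, e⟩ => ⟨v.1, hv, v.2, e⟩⟩
  rw [e]
  refine IsCompact.image ?_ continuous_mk'
  rw [Subtype.isCompact_iff, Set.image_preimage_eq_of_subset]
  · exact h
  · intro v hv
    exact ⟨⟨v, h0 v hv⟩, rfl⟩

theorem tendsto_mk {u : ℕ → Fin d → ℝ} {v : Fin d → ℝ} (hu : ∀ n, u n ≠ 0) (hv : v ≠ 0)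
    (h : Tendsto u atTop (𝓝 v)) : Tendsto (fun n => mk ℝ (u n) (hu n)) atTop (𝓝 (mk ℝ v hv)) :=
  (continuous_mk'.tendsto ⟨v, hv⟩).comp (f := fun n => ⟨u n, hu n⟩) (tendsto_subtype_rng.2 h)

theorem chart_pr {S : Set (Fin d → ℝ)} (hS : ∀ c : ℝ, 0 < c → ∀ v ∈ S, c • v ∈ S)
    {φ : (Fin d → ℝ) →ₗ[ℝ] ℝ} (hφ : ∀ v ∈ S, v ≠ 0 → 0 < φ v) :
    chart φ (pr S) = S ∩ {v | φ v = 1} := by
  ext v
  constructor
  · rintro ⟨h1, h0, hv⟩
    rcases (mem_pr_cone hS h0).1 hv with a | a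
    · exact ⟨a, h1⟩
    · have := hφ _ a (neg_ne_zero.2 h0)
      rw [map_neg] at this
      linarith
  · rintro ⟨a, h1⟩
    have h0 : v ≠ 0 := by rintro rfl; simp at h1
    exact ⟨h1, h0, v, a, h0, rfl⟩

theorem perturb {O : Set (Fin d → ℝ)} (hO : IsOpen O) {v : Fin d → ℝ} (hv : v ∈ O)
    (e : Fin d → ℝ) : ∃ ε : ℝ, 0 < ε ∧ v + ε • e ∈ O ∧ v - ε • e ∈ O := by
  have h1 : ∀ᶠ ε : ℝ in 𝓝 0, v + ε • e ∈ O :=
    (by fun_prop : Continuous fun ε : ℝ => v + ε • e).continuousAt.eventually_mem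
      (hO.mem_nhds (by simpa using hv))
  have h2 : ∀ᶠ ε : ℝ in 𝓝 0, v - ε • e ∈ O :=
    (by fun_prop : Continuous fun ε : ℝ => v - ε • e).continuousAt.eventually_mem
      (hO.mem_nhds (by simpa using hv))
  obtain ⟨ε, h3, h4⟩ :=
    (((h1.and h2).filter_mono nhdsWithin_le_nhds).and (self_mem_nhdsWithin (s := Set.Ioi 0))).exists
  exact ⟨ε, h4, h3⟩

theorem gl_smul (A : GL (Fin d) ℝ) (v : Fin d → ℝ) : A • v = (A : Matrix _ _ ℝ) *ᵥ v := rfl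

theorem gl_cont (A : GL (Fin d) ℝ) : Continuous fun v : Fin d → ℝ => A • v := by
  simp only [gl_smul]; fun_prop

/-- an invertible matrix as a linear map -/
def glLin (A : GL (Fin d) ℝ) : (Fin d → ℝ) →ₗ[ℝ] (Fin d → ℝ) := (A : Matrix _ _ ℝ).mulVecLin

theorem glLin_apply (A : GL (Fin d) ℝ) (v : Fin d → ℝ) : glLin A v = A • v := rfl

theorem smul_interior {K K' : Set (Fin d → ℝ)} (A : GL (Fin d) ℝ) (h : ∀ v ∈ K, A • v ∈ K')
    {v : Fin d → ℝ} (hv : v ∈ interior K) : A • v ∈ interior K' := by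
  refine mem_interior.2 ⟨(fun w => A⁻¹ • w) ⁻¹' interior K, fun w hw => ?_,
    isOpen_interior.preimage (gl_cont _), by simpa using hv⟩
  simpa using h _ (interior_subset hw)

theorem pgl_mk_smul (A : GL (Fin d) ℝ) {v : Fin d → ℝ} (h : v ≠ 0) :
    (ProjGenLinGroup.mk A : PGLR d) • mk ℝ v h = mk ℝ (A • v) ((smul_ne_zero_iff_ne A).2 h) := rfl

theorem topGroup : IsTopologicalGroup (PGLR d) :=
  QuotientGroup.instIsTopologicalGroup (Subgroup.center (GL (Fin d) ℝ))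

theorem isOpenMap_mk : IsOpenMap (ProjGenLinGroup.mk : GL (Fin d) ℝ → PGLR d) :=
  QuotientGroup.isOpenMap_coe (N := Subgroup.center (GL (Fin d) ℝ))

/-- an invariant cone with a compact fundamental set in a subspace -/
structure ConeData (Γ : Subgroup (PGLR d)) (φ : (Fin d → ℝ) →ₗ[ℝ] ℝ) (K : Set (Fin d → ℝ))
    (Z : Submodule ℝ (Fin d → ℝ)) (K0 : Set (Fin d → ℝ)) : Prop where
  closed : IsClosed K
  convex : Convex ℝ K
  smul : ∀ c : ℝ, 0 < c → ∀ v ∈ K, c • v ∈ K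
  pos : ∀ v ∈ K, v ≠ 0 → 0 < φ v
  lift : ∀ γ ∈ Γ, ∃ A : GL (Fin d) ℝ, ProjGenLinGroup.mk A = γ ∧ (∀ v ∈ K, A • v ∈ K) ∧
    ∀ v ∈ Z, A • v ∈ Z
  cpt : IsCompact K0
  ne : K0.Nonempty
  ne0 : ∀ v ∈ K0, v ≠ 0
  sub : K0 ⊆ interior K ∩ Z
  cov : ∀ v ∈ interior K, v ∈ Z → ∃ A : GL (Fin d) ℝ, ProjGenLinGroup.mk A ∈ Γ ∧
    ∃ c : ℝ, c ≠ 0 ∧ c • A • v ∈ K0

namespace ConeData

variable {Γ : Subgroup (PGLR d)} {φ : (Fin d → ℝ) →ₗ[ℝ] ℝ} {K K0 : Set (Fin d → ℝ)}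
  {Z : Submodule ℝ (Fin d → ℝ)}

theorem smul_int (h : ConeData Γ φ K Z K0) (c : ℝ) (hc : 0 < c) (v : Fin d → ℝ)
    (hv : v ∈ interior K) : c • v ∈ interior K := by
  refine mem_interior.2 ⟨(fun w => c⁻¹ • w) ⁻¹' interior K, fun w hw => ?_,
    isOpen_interior.preimage (continuous_const_smul _), by simpa [hc.ne'] using hv⟩
  simpa [hc.ne'] using h.smul c hc _ (interior_subset hw)

theorem pc (h : ConeData Γ φ K Z K0) : ProperlyConvex φ (pr (interior K)) := by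
  constructor
  · intro v h0 hv
    have h1 : closure (pr (interior K)) ⊆ pr K :=
      closure_minimal (fun _ ⟨w, a, b⟩ => ⟨w, interior_subset a, b⟩) (isClosed_pr h.smul h.closed)
    rcases (mem_pr_cone h.smul h0).1 (h1 hv) with a | a
    · exact (h.pos v a h0).ne'
    · have := h.pos _ a (neg_ne_zero.2 h0)
      rw [map_neg] at this
      linarith
  · rw [chart_pr h.smul_int fun v hv => h.pos v (interior_subset hv)]
    exact h.convex.interior.inter ((convex_singleton (1 : ℝ)).linear_preimage φ)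

theorem inv (h : ConeData Γ φ K Z K0) : Invariant Γ (pr (interior K)) := by
  rintro γ hγ _ ⟨v, hv, h0, rfl⟩
  obtain ⟨A, rfl, a, -⟩ := h.lift γ hγ
  exact ⟨_, smul_interior A a hv, _, rfl⟩

theorem cocompact (h : ConeData Γ φ K Z K0) : Cocompact Γ (pr (interior K ∩ Z)) := by
  have e : Quotient.mk (MulAction.orbitRel Γ (Proj d)) '' pr (interior K ∩ Z) =
      Quotient.mk (MulAction.orbitRel Γ (Proj d)) '' pr K0 := by
    apply Set.Subset.antisymm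
    · rintro _ ⟨_, ⟨v, hv, h0, rfl⟩, rfl⟩
      obtain ⟨A, a, c, hc, b⟩ := h.cov v hv.1 hv.2
      exact ⟨ProjGenLinGroup.mk A • Projectivization.mk ℝ v h0, (mem_pr _).2 ⟨c, hc, b⟩,
        Quotient.sound ⟨⟨_, a⟩, rfl⟩⟩
    · exact Set.image_mono fun _ ⟨w, a, b⟩ => ⟨w, h.sub a, b⟩
  unfold Cocompact
  rw [e]
  exact (isCompact_pr h.cpt h.ne0).image continuous_quotient_mk'

theorem nonempty (h : ConeData Γ φ K Z K0) : (pr (interior K ∩ Z)).Nonempty := by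
  obtain ⟨v, hv⟩ := h.ne
  exact ⟨_, v, h.sub hv, h.ne0 v hv, rfl⟩

theorem naive (h : ConeData Γ φ K Z K0) (h1 : Infinite Γ) (h2 : DiscreteTopology Γ) :
    NaiveCC Γ := by
  refine ⟨h1, h2, φ, pr (interior K), pr (interior K ∩ Z), isOpen_pr isOpen_interior, h.pc, h.inv,
    h.nonempty, fun _ ⟨w, a, b⟩ => ⟨w, a.1, b⟩, ?_, ?_, ?_, h.cocompact⟩
  · rintro _ ⟨a, v, hv, h0, rfl⟩
    have h3 : closure (pr (interior K ∩ Z)) ⊆ pr Z :=
      closure_minimal (fun _ ⟨w, a, b⟩ => ⟨w, a.2, b⟩)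
        (isClosed_pr (fun c _ w hw => Z.smul_mem c hw) Z.closed_of_finiteDimensional)
    obtain ⟨c, hc, b⟩ := (mem_pr h0).1 (h3 a)
    exact ⟨v, ⟨hv, (Z.smul_mem_iff hc).1 b⟩, h0, rfl⟩
  · rw [chart_pr (S := interior K ∩ Z)
      (fun c hc v hv => ⟨h.smul_int c hc v hv.1, Z.smul_mem c hv.2⟩)
      fun v hv => h.pos v (interior_subset hv.1)]
    exact (h.convex.interior.inter Z.convex).inter ((convex_singleton (1 : ℝ)).linear_preimage φ)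
  · rintro γ hγ _ ⟨v, hv, h0, rfl⟩
    obtain ⟨A, rfl, a, b⟩ := h.lift γ hγ
    exact ⟨_, ⟨smul_interior A a hv.1, b v hv.2⟩, _, rfl⟩

theorem conj (h : ConeData Γ φ K Z K0) (P : GL (Fin d) ℝ) {Γ' : Subgroup (PGLR d)}
    (hΓ : ∀ A : GL (Fin d) ℝ, ProjGenLinGroup.mk A ∈ Γ ↔ ProjGenLinGroup.mk (P * A * P⁻¹) ∈ Γ') :
    ConeData Γ' (φ.comp (glLin P⁻¹)) ((fun v => P⁻¹ • v) ⁻¹' K) (Z.comap (glLin P⁻¹))
      ((fun v => P • v) '' K0) where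
  closed := h.closed.preimage (gl_cont _)
  convex := h.convex.linear_preimage (glLin P⁻¹)
  smul := fun c hc v hv => by
    change P⁻¹ • c • v ∈ K
    rw [smul_comm]; exact h.smul c hc _ hv
  pos := fun v hv h0 => h.pos _ hv ((smul_ne_zero_iff_ne P⁻¹).2 h0)
  lift := fun γ hγ => by
    obtain ⟨B, rfl⟩ := ProjGenLinGroup.mk_surjective γ
    obtain ⟨A, a, b, c⟩ := h.lift _ ((hΓ (P⁻¹ * B * P)).2 (by simpa [mul_assoc] using hγ))
    refine ⟨P * A * P⁻¹, by simp [a, mul_assoc], fun v hv => ?_, fun v hv => ?_⟩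
    · simpa [mul_smul] using b _ hv
    · simpa [mul_smul, glLin_apply] using c _ hv
  cpt := h.cpt.image (gl_cont _)
  ne := h.ne.image _
  ne0 := by rintro _ ⟨v, hv, rfl⟩; exact (smul_ne_zero_iff_ne _).2 (h.ne0 v hv)
  sub := by
    rintro _ ⟨v, hv, rfl⟩
    exact ⟨smul_interior P (fun w hw => by simpa using hw) (h.sub hv).1,
      by simpa [glLin_apply] using (h.sub hv).2⟩
  cov := fun v hv hz => by
    obtain ⟨A, a, c, hc, b⟩ := h.cov (P⁻¹ • v) (smul_interior P⁻¹ (fun w hw => hw) hv) hz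
    exact ⟨P * A * P⁻¹, (hΓ A).1 a, c, hc, _, b, by simp only [mul_smul]; rw [smul_comm]⟩

end ConeData

theorem exists_max {Γ : Subgroup (PGLR d)} {Ω : Set (Proj d)} (hc : Cocompact Γ Ω) (ho : IsOpen Ω)
    (hn : Ω.Nonempty) (hi : Invariant Γ Ω) (g : (Fin d → ℝ) → ℝ) (hg : ContinuousOn g (cone Ω))
    (hs : ∀ c : ℝ, c ≠ 0 → ∀ v, g (c • v) = g v)
    (hl : ∀ γ ∈ Γ, ∃ A : GL (Fin d) ℝ, ProjGenLinGroup.mk A = γ ∧ ∀ v, g (A • v) = g v) :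
    ∃ v ∈ cone Ω, ∀ w ∈ cone Ω, g w ≤ g v := by
  by_contra hcon
  push Not at hcon
  let U : ℝ → Set (Proj d) := fun c => pr (cone Ω ∩ g ⁻¹' Set.Iio c)
  have mU : ∀ c v (h : v ≠ 0), mk ℝ v h ∈ U c ↔ mk ℝ v h ∈ Ω ∧ g v < c := by
    intro c v h
    rw [mem_pr]
    constructor
    · rintro ⟨a, ha, ⟨h1, h2⟩, h3⟩
      exact ⟨by rwa [mk_smul h ha] at h2, by rwa [Set.mem_preimage, hs a ha] at h3⟩
    · rintro ⟨h1, h2⟩
      exact ⟨1, one_ne_zero, by rw [one_smul]; exact ⟨⟨h, h1⟩, h2⟩⟩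
  have oU : ∀ c, IsOpen (U c) := fun c =>
    isOpen_pr (hg.isOpen_inter_preimage (isOpen_iff.1 ho) isOpen_Iio)
  have sU : ∀ c, Quotient.mk (MulAction.orbitRel Γ (Proj d)) ⁻¹'
      (Quotient.mk (MulAction.orbitRel Γ (Proj d)) '' U c) = U c := by
    intro c
    refine Set.Subset.antisymm ?_ (Set.subset_preimage_image _ _)
    rintro x ⟨y, hy, e⟩
    obtain ⟨⟨γ, hγ⟩, rfl⟩ := Quotient.exact e.symm
    induction y using Projectivization.ind with | _ v hv =>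
    obtain ⟨A, rfl, a⟩ := hl γ hγ
    exact (mU c _ _).2 ⟨hi _ hγ _ ((mU c v hv).1 hy).1, (a v).trans_lt ((mU c v hv).1 hy).2⟩
  obtain ⟨x, hx⟩ := hn
  induction x using Projectivization.ind with | _ v0 hv0 =>
  have : Nonempty (cone Ω) := ⟨⟨v0, hv0, hx⟩⟩
  obtain ⟨⟨v, h0, hv⟩, h⟩ := IsCompact.elim_directed_cover hc
    (fun v : cone Ω => Quotient.mk (MulAction.orbitRel Γ (Proj d)) '' U (g v))
    (fun v => isOpen_coinduced.2 (by
      change IsOpen (Quotient.mk (MulAction.orbitRel Γ (Proj d)) ⁻¹' _)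
      rw [sU]; exact oU _))
    (by
      rintro _ ⟨y, hy, rfl⟩
      induction y using Projectivization.ind with | _ w hw =>
      obtain ⟨u, hu, a⟩ := hcon w ⟨hw, hy⟩
      exact Set.mem_iUnion.2 ⟨⟨u, hu⟩, _, (mU _ w hw).2 ⟨hy, a⟩, rfl⟩)
    (by
      have mono : ∀ a b : ℝ, a ≤ b → U a ⊆ U b := fun a b hab _ ⟨w, c, e⟩ =>
        ⟨w, ⟨c.1, lt_of_lt_of_le c.2 hab⟩, e⟩
      intro a b
      rcases le_total (g a) (g b) with c | c
      · exact ⟨b, Set.image_mono (mono _ _ c), le_rfl⟩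
      · exact ⟨a, le_rfl, Set.image_mono (mono _ _ c)⟩)
  have h1 : mk ℝ v h0 ∈ U (g v) := by
    rw [← sU]; exact h ⟨_, hv, rfl⟩
  exact lt_irrefl _ ((mU _ v h0).1 h1).2

end Pool.Agent.H652Z.CC
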