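import Pool.Agent.H652Z.CC.Fam

/-!
Every representation near the base point is conjugate to a member of the family.
-/

namespace Pool.Agent.H652Z.CC

set_option maxHeartbeats 400000

open Filter Topology Matrix Real DihedralGroup

theorem hom_ext {H : Type} [Group H] {f g : G →* H} (h1 : f (r 0, -1) = g (r 0, -1))
    (h2 : f (sr 0, 1) = g (sr 0, 1)) (h3 : f (sr 1, 1) = g (sr 1, 1)) : f = g := by
  have a1 : f (r 1, 1) = g (r 1, 1) := by
    have : ((r 1, 1) : G) = (sr 0, 1) * (sr 1, 1) := by simp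
    rw [this, map_mul, map_mul, h2, h3]
  have a2 : ∀ i, f (r i, 1) = g (r i, 1) := by
    intro i
    obtain ⟨n, hi, -⟩ := zc_int i
    have : ((r i, 1) : G) = (r 1, 1) ^ n := by
      rw [Prod.pow_mk, r_one_zpow, _root_.one_zpow, hi]; rfl
    rw [this, map_zpow, map_zpow, a1]
  have a3 : ∀ d, f (d, 1) = g (d, 1) := by
    rintro (i | i)
    · exact a2 i
    · have : ((sr i, 1) : G) = (sr 0, 1) * (r i, 1) := by simp
      rw [this, map_mul, map_mul, h2, a2]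
  refine MonoidHom.ext fun ⟨d, ε⟩ => ?_
  rcases Int.units_eq_one_or ε with rfl | rfl
  · exact a3 d
  · have : ((d, -1) : G) = (d, 1) * (r 0, -1) := by simp
    rw [this, map_mul, map_mul, h1, a3]

/-- matrices of size four -/
abbrev M4 : Type := Matrix (Fin 4) (Fin 4) ℝ

/-- the central involution -/
def S0 : M4 := !![1, 0, 0, 0; 0, 1, 0, 0; 0, 0, -1, 0; 0, 0, 0, -1]

/-- the first reflection -/
def R0 : M4 := !![0, 1, 0, 0; 1, 0, 0, 0; 0, 0, 0, 1; 0, 0, 1, 0]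

/-- the second reflection -/
noncomputable def R1 (a b : ℝ) : M4 :=
  !![0, (exp a)⁻¹, 0, 0; exp a, 0, 0, 0; 0, 0, 0, (exp b)⁻¹; 0, 0, exp b, 0]

theorem Dm_S (a b : ℝ) : Dm a b (r 0, -1) = S0 := by simp [Dm, S0]

theorem Dm_R (a b : ℝ) : Dm a b (sr 0, 1) = R0 := by simp [Dm, R0]

theorem Dm_R1 (a b : ℝ) : Dm a b (sr 1, 1) = R1 a b := by simp [Dm, R1, Real.exp_neg]

theorem S0_sq : S0 * S0 = 1 := by
  ext i j; fin_cases i <;> fin_cases j <;> simp [S0, Matrix.mul_apply, Fin.sum_univ_four]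

theorem R0_sq : R0 * R0 = 1 := by
  ext i j; fin_cases i <;> fin_cases j <;> simp [R0, Matrix.mul_apply, Fin.sum_univ_four]

theorem R1_sq (a b : ℝ) : R1 a b * R1 a b = 1 := by
  ext i j; fin_cases i <;> fin_cases j <;> simp [R1, Matrix.mul_apply, Fin.sum_univ_four]

theorem S0_R0 : S0 * R0 = R0 * S0 := by
  ext i j; fin_cases i <;> fin_cases j <;> simp [S0, R0, Matrix.mul_apply, Fin.sum_univ_four]

theorem root {τ : ℝ} (h : 2 < τ) : ∃ a, 0 < a ∧ 1 < exp a ∧ exp a ^ 2 - τ * exp a + 1 = 0 := by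
  have h1 : 0 ≤ τ ^ 2 - 4 := by nlinarith
  have h2 := sqrt_nonneg (τ ^ 2 - 4)
  have h3 := sq_sqrt h1
  have h4 : 1 < (τ + √(τ ^ 2 - 4)) / 2 := by linarith
  refine ⟨log ((τ + √(τ ^ 2 - 4)) / 2), log_pos h4, ?_⟩
  rw [exp_log (by linarith)]
  exact ⟨h4, by nlinarith⟩

/-- the averaging matrix -/
def QQ (S R : M4) : M4 := 1 + S * S0 + R * R0 + S * R * R0 * S0

/-- open conditions on a conjugated reflection -/
def GoodB (B : M4) : Prop :=
  (0 < B 0 1 ∧ 2 < B 0 1 + B 1 0 ∧ |B 0 0| < 1 - B 0 1) ∧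
    (0 < B 2 3 ∧ 2 < B 2 3 + B 3 2 ∧ |B 2 2| < 1 - B 2 3)

theorem coreB {B : M4} (h1 : B * B = 1) (h2 : S0 * B = B * S0) (h : GoodB B) :
    ∃ (P : M4) (a b : ℝ), P.det ≠ 0 ∧ 0 < a ∧ 0 < b ∧ S0 * P = P * S0 ∧ R0 * P = P * R0 ∧
      B * P = P * R1 a b := by
  obtain ⟨⟨g1, g2, g3⟩, g4, g5, g6⟩ := h
  have z : ∀ i j, (S0 * B) i j = (B * S0) i j := fun i j => by rw [h2]
  have z02 := z 0 2
  have z03 := z 0 3
  have z12 := z 1 2
  have z13 := z 1 3
  have z20 := z 2 0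
  have z21 := z 2 1
  have z30 := z 3 0
  have z31 := z 3 1
  simp [S0, Matrix.mul_apply, Fin.sum_univ_four] at z02 z03 z12 z13 z20 z21 z30 z31
  replace z02 : B 0 2 = 0 := by linarith
  replace z03 : B 0 3 = 0 := by linarith
  replace z12 : B 1 2 = 0 := by linarith
  replace z13 : B 1 3 = 0 := by linarith
  replace z20 : B 2 0 = 0 := by linarith
  replace z21 : B 2 1 = 0 := by linarith
  replace z30 : B 3 0 = 0 := by linarith
  replace z31 : B 3 1 = 0 := by linarith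
  have y : ∀ i j, (B * B) i j = (1 : M4) i j := fun i j => by rw [h1]
  have y00 := y 0 0
  have y01 := y 0 1
  have y22 := y 2 2
  have y23 := y 2 3
  simp [Matrix.mul_apply, Fin.sum_univ_four, z02, z03, z20, z21] at y00 y01 y22 y23
  have t1 : B 1 1 = -B 0 0 := mul_left_cancel₀ g1.ne' (by linarith)
  have t2 : B 3 3 = -B 2 2 := mul_left_cancel₀ g4.ne' (by linarith)
  obtain ⟨a, a1, a2, a3⟩ := root g2
  obtain ⟨b, b1, b2, b3⟩ := root g5
  refine ⟨!![exp a - B 0 1, B 0 0, 0, 0; B 0 0, exp a - B 0 1, 0, 0;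
    0, 0, exp b - B 2 3, B 2 2; 0, 0, B 2 2, exp b - B 2 3], a, b, ?_, a1, b1, ?_, ?_, ?_⟩
  · have e : det !![exp a - B 0 1, B 0 0, 0, 0; B 0 0, exp a - B 0 1, 0, 0;
        0, 0, exp b - B 2 3, B 2 2; 0, 0, B 2 2, exp b - B 2 3] =
        ((exp a - B 0 1) ^ 2 - B 0 0 ^ 2) * ((exp b - B 2 3) ^ 2 - B 2 2 ^ 2) := by
      simp [Matrix.det_succ_row_zero, Fin.sum_univ_succ, Fin.succAbove]
      ring
    rw [e]
    obtain ⟨c1, c2⟩ := abs_lt.1 g3
    obtain ⟨c3, c4⟩ := abs_lt.1 g6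
    exact mul_ne_zero (by nlinarith) (by nlinarith)
  · ext i j; fin_cases i <;> fin_cases j <;> simp [S0, Matrix.mul_apply, Fin.sum_univ_four]
  · ext i j; fin_cases i <;> fin_cases j <;> simp [R0, Matrix.mul_apply, Fin.sum_univ_four]
  · have pa := (exp_pos a).ne'
    have pb := (exp_pos b).ne'
    ext i j
    fin_cases i <;> fin_cases j <;>
      simp [R1, Matrix.mul_apply, Fin.sum_univ_four, z02, z03, z12, z13, z20, z21, z30, z31, t1, t2]
    · ring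
    · field_simp; linear_combination exp a * y00 + B 0 1 * a3
    · linear_combination -y00 - a3
    · field_simp; linear_combination -B 0 0 * a3
    · ring
    · field_simp; linear_combination exp b * y22 + B 2 3 * b3
    · linear_combination -y22 - b3
    · field_simp; linear_combination -B 2 2 * b3

theorem core {S R R' : M4} (hS : S * S = 1) (hR : R * R = 1) (hR' : R' * R' = 1)
    (c1 : R * S = S * R) (c2 : R' * S = S * R') (hQ : (QQ S R).det ≠ 0)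
    (h : GoodB ((QQ S R)⁻¹ * R' * QQ S R)) :
    ∃ (P : M4) (a b : ℝ), P.det ≠ 0 ∧ 0 < a ∧ 0 < b ∧ S * P = P * S0 ∧ R * P = P * R0 ∧
      R' * P = P * R1 a b := by
  have hS' : ∀ X : M4, S * (S * X) = X := fun X => by rw [← mul_assoc, hS, one_mul]
  have hR'' : ∀ X : M4, R * (R * X) = X := fun X => by rw [← mul_assoc, hR, one_mul]
  have c1' : ∀ X : M4, R * (S * X) = S * (R * X) := fun X => by rw [← mul_assoc, c1, mul_assoc]
  have e0 : R0 * (R0 * S0) = S0 := by rw [← mul_assoc, R0_sq, one_mul]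
  have q1 : S * QQ S R = QQ S R * S0 := by
    simp only [QQ, mul_add, add_mul, mul_assoc, hS', S0_sq, mul_one, one_mul]
    abel
  have q2 : R * QQ S R = QQ S R * R0 := by
    simp only [QQ, mul_add, add_mul, mul_assoc, hR'', c1', R0_sq, mul_one, one_mul, e0, S0_R0]
    abel
  obtain ⟨Q, hQe⟩ : ∃ Q, Q = QQ S R := ⟨_, rfl⟩
  rw [← hQe] at hQ h q1 q2
  have u := isUnit_iff_ne_zero.2 hQ
  have i1 := Matrix.mul_nonsing_inv Q u
  have i2 := Matrix.nonsing_inv_mul Q u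
  have i3 : ∀ X : M4, Q * (Q⁻¹ * X) = X := fun X => by rw [← mul_assoc, i1, one_mul]
  have q3 : S0 * Q⁻¹ = Q⁻¹ * S := by
    rw [← one_mul (S0 * _), ← i2, mul_assoc, ← mul_assoc Q, ← q1, mul_assoc, i1, mul_one]
  obtain ⟨P, a, b, d1, d2, d3, d4, d5, d6⟩ := coreB (B := Q⁻¹ * R' * Q)
    (by simp only [mul_assoc, i3]; rw [← mul_assoc R', hR', one_mul, i2])
    (by rw [mul_assoc _ Q, ← q1, ← mul_assoc, ← mul_assoc, q3, mul_assoc _ S, ← c2]
        simp only [mul_assoc]) h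
  refine ⟨Q * P, a, b, by rw [det_mul]; exact mul_ne_zero hQ d1, d2, d3, ?_, ?_, ?_⟩
  · rw [← mul_assoc, q1, mul_assoc, d4, mul_assoc]
  · rw [← mul_assoc, q2, mul_assoc, d5, mul_assoc]
  · rw [mul_assoc, ← d6]; simp only [mul_assoc, i3]

/-- rescaling of a projective involution -/
noncomputable def NN (A : M4) : M4 := (√((A * A) 0 0))⁻¹ • A

theorem NN_sq {A : GL (Fin 4) ℝ} (h : ProjGenLinGroup.mk A * ProjGenLinGroup.mk A = 1)
    (hp : 0 < ((A : M4) * A) 0 0) : NN A * NN A = 1 := by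
  obtain ⟨c, -, e⟩ := mk_eq (A := 1) (B := A * A) (by rw [map_mul, h]; rfl)
  rw [Units.val_mul, Units.val_one] at e
  have e2 : ((A : M4) * A) 0 0 = c := by rw [e]; simp
  rw [e2] at hp
  rw [NN, e2, Matrix.smul_mul, Matrix.mul_smul, e, smul_smul, smul_smul, ← mul_inv,
    mul_self_sqrt hp.le, inv_mul_cancel₀ hp.ne', one_smul]

theorem NN_comm {A B : GL (Fin 4) ℝ}
    (h : ProjGenLinGroup.mk A * ProjGenLinGroup.mk B = ProjGenLinGroup.mk B * ProjGenLinGroup.mk A)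
    (hA : NN A * NN A = 1) (h1 : 0 < (NN A * NN B) 0 1)
    (h2 : 0 < (NN B * NN A) 0 1) : NN B * NN A = NN A * NN B := by
  obtain ⟨c, -, e⟩ := mk_eq (A := A * B) (B := B * A) (by rw [map_mul, map_mul, h])
  rw [Units.val_mul, Units.val_mul] at e
  have e1 : NN B * NN A = c • (NN A * NN B) := by
    simp only [NN, Matrix.smul_mul, Matrix.mul_smul, e, smul_smul]
    congr 1; ring
  obtain ⟨X, hX⟩ : ∃ X, X = NN A := ⟨_, rfl⟩
  obtain ⟨Y, hY⟩ : ∃ Y, Y = NN B := ⟨_, rfl⟩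
  rw [← hX] at hA
  rw [← hX, ← hY] at h1 h2 e1 ⊢
  have e4 : X * Y = c • (Y * X) := by
    calc X * Y = X * (Y * X) * X := by rw [mul_assoc, mul_assoc Y, hA, mul_one]
      _ = X * (c • (X * Y)) * X := by rw [← e1]
      _ = c • (Y * X) := by rw [Matrix.mul_smul, Matrix.smul_mul, ← mul_assoc, hA, one_mul]
  have e5 : (Y * X) 0 1 = c * (X * Y) 0 1 := by rw [e1]; rfl
  have e6 : (X * Y) 0 1 = c * (Y * X) 0 1 := by rw [e4]; rfl
  have e7 : 0 < c := by rw [e5] at h2; exact (pos_iff_pos_of_mul_pos h2).2 h1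
  have e8 : (c - 1) * ((c + 1) * (X * Y) 0 1) = 0 := by rw [e5] at e6; linarith
  have e9 : c = 1 := by
    rcases mul_eq_zero.1 e8 with a | a
    · linarith
    · exact absurd a (by positivity)
  rw [e1, e9, one_smul]

theorem tendsto_elem {X : Type} {l : Filter X} {f : X → M4} {A : M4} (h : Tendsto f l (𝓝 A))
    (i j : Fin 4) : Tendsto (fun x => f x i j) l (𝓝 (A i j)) :=
  ((continuous_id.matrix_elem i j).tendsto A).comp h

theorem tendsto_NN {X : Type} {l : Filter X} {f : X → M4} {A : M4} (h : Tendsto f l (𝓝 A))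
    (hA : A * A = 1) : Tendsto (fun x => NN (f x)) l (𝓝 A) ∧ ∀ᶠ x in l, 0 < (f x * f x) 0 0 := by
  have h1 := tendsto_elem (h.mul h) 0 0
  rw [hA, one_apply_eq] at h1
  exact ⟨by simpa [NN] using (h1.sqrt.inv₀ (by simp)).smul h, h1.eventually (lt_mem_nhds one_pos)⟩

theorem mk_conj {A P D : GL (Fin 4) ℝ} (hp : 0 < ((A : M4) * A) 0 0)
    (h : NN A * P = P * (D : M4)) : ProjGenLinGroup.mk A = ProjGenLinGroup.mk (P * D * P⁻¹) := by
  refine mk_eq' (c := (√(((A : M4) * A) 0 0))⁻¹) (inv_ne_zero (sqrt_pos.2 hp).ne') ?_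
  rw [Units.val_mul, Units.val_mul, ← h, mul_assoc, Units.mul_inv, mul_one, NN]

theorem rigid : ∀ᶠ x : GL (Fin 4) ℝ × GL (Fin 4) ℝ × GL (Fin 4) ℝ in
    𝓝 (Dg 1 1 (r 0, -1), Dg 1 1 (sr 0, 1), Dg 1 1 (sr 1, 1)), ∀ f : G →* PGLR 4,
      f (r 0, -1) = ProjGenLinGroup.mk x.1 → f (sr 0, 1) = ProjGenLinGroup.mk x.2.1 →
      f (sr 1, 1) = ProjGenLinGroup.mk x.2.2 → ∃ a b P, 0 < a ∧ 0 < b ∧ f = rho a b P := by
  obtain ⟨l, hl⟩ : ∃ l, l = 𝓝 (Dg 1 1 (r 0, -1), Dg 1 1 (sr 0, 1), Dg 1 1 (sr 1, 1)) := ⟨_, rfl⟩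
  have t1 : Tendsto (fun x : GL (Fin 4) ℝ × GL (Fin 4) ℝ × GL (Fin 4) ℝ => (x.1 : M4)) l (𝓝 S0) := by
    rw [hl, ← Dm_S 1 1]
    exact (Units.continuous_val.comp continuous_fst).tendsto _
  have t2 : Tendsto (fun x : GL (Fin 4) ℝ × GL (Fin 4) ℝ × GL (Fin 4) ℝ => (x.2.1 : M4)) l
      (𝓝 R0) := by
    rw [hl, ← Dm_R 1 1]
    exact (Units.continuous_val.comp continuous_snd.fst).tendsto _
  have t3 : Tendsto (fun x : GL (Fin 4) ℝ × GL (Fin 4) ℝ × GL (Fin 4) ℝ => (x.2.2 : M4)) l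
      (𝓝 (R1 1 1)) := by
    rw [hl, ← Dm_R1 1 1]
    exact (Units.continuous_val.comp continuous_snd.snd).tendsto _
  rw [← hl]
  obtain ⟨n1, p1⟩ := tendsto_NN t1 S0_sq
  obtain ⟨n2, p2⟩ := tendsto_NN t2 R0_sq
  obtain ⟨n3, p3⟩ := tendsto_NN t3 (R1_sq 1 1)
  have e1 := exp_pos (1 : ℝ)
  have e2 : 2 < exp (1 : ℝ) := by linarith [add_one_lt_exp (one_ne_zero (α := ℝ))]
  have e3 : (exp (1 : ℝ))⁻¹ < 1 := inv_lt_one_of_one_lt₀ (by linarith)
  have e4 := inv_pos.2 e1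
  have s1 := (tendsto_elem (n1.mul n2) 0 1).eventually (lt_mem_nhds (a := 0)
    (by simp [S0, R0, Matrix.mul_apply, Fin.sum_univ_four]))
  have s2 := (tendsto_elem (n2.mul n1) 0 1).eventually (lt_mem_nhds (a := 0)
    (by simp [S0, R0, Matrix.mul_apply, Fin.sum_univ_four]))
  have s3 := (tendsto_elem (n1.mul n3) 0 1).eventually (lt_mem_nhds (a := 0)
    (by simp [S0, R1, Matrix.mul_apply, Fin.sum_univ_four, e1]))
  have s4 := (tendsto_elem (n3.mul n1) 0 1).eventually (lt_mem_nhds (a := 0)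
    (by simp [S0, R1, Matrix.mul_apply, Fin.sum_univ_four, e1]))
  have eQ : QQ S0 R0 = (4 : ℝ) • (1 : M4) := by
    rw [QQ, S0_sq, R0_sq, mul_assoc S0, R0_sq, mul_one, S0_sq]
    module
  have dQ : (QQ S0 R0).det ≠ 0 := by rw [eQ]; simp
  have tQ : Tendsto (fun x : GL (Fin 4) ℝ × GL (Fin 4) ℝ × GL (Fin 4) ℝ =>
      QQ (NN x.1) (NN x.2.1)) l (𝓝 (QQ S0 R0)) :=
    (((n1.mul_const _).const_add _).add (n2.mul_const _)).add
      (((n1.mul n2).mul_const _).mul_const _)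
  have sQ := ((continuous_id.matrix_det.tendsto _).comp tQ).eventually_ne dQ
  have tB := (((continuousAt_matrix_inv _ (by
    rw [Ring.inverse_eq_inv']; exact continuousAt_inv₀ dQ)).tendsto.comp tQ).mul n3).mul tQ
  have eB : (QQ S0 R0)⁻¹ * R1 1 1 * QQ S0 R0 = R1 1 1 := by
    have : R1 1 1 * QQ S0 R0 = QQ S0 R0 * R1 1 1 := by rw [eQ]; simp
    rw [mul_assoc, this, ← mul_assoc, Matrix.nonsing_inv_mul _ (isUnit_iff_ne_zero.2 dQ), one_mul]
  rw [eB] at tB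
  have b1 := (tendsto_elem tB 0 1).eventually (lt_mem_nhds (a := 0) (by simp [R1, e1]))
  have b2 := ((tendsto_elem tB 0 1).add (tendsto_elem tB 1 0)).eventually (lt_mem_nhds (a := 2)
    (by simp [R1]; linarith))
  have b3 := (tendsto_elem tB 0 0).abs.eventually_lt ((tendsto_elem tB 0 1).const_sub 1)
    (by simp [R1, e3])
  have b4 := (tendsto_elem tB 2 3).eventually (lt_mem_nhds (a := 0) (by simp [R1, e1]))
  have b5 := ((tendsto_elem tB 2 3).add (tendsto_elem tB 3 2)).eventually (lt_mem_nhds (a := 2)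
    (by simp [R1]; linarith))
  have b6 := (tendsto_elem tB 2 2).abs.eventually_lt ((tendsto_elem tB 2 3).const_sub 1)
    (by simp [R1, e3])
  filter_upwards [p1, p2, p3, s1, s2, s3, s4, sQ, b1, b2, b3, b4, b5, b6] with x p1 p2 p3 s1 s2 s3
    s4 sQ b1 b2 b3 b4 b5 b6 f f1 f2 f3
  have q1 := NN_sq (by rw [← f1, ← map_mul, ← f.map_one]; congr 1) p1
  have q2 := NN_sq (by rw [← f2, ← map_mul, ← f.map_one]; congr 1) p2
  have q3 := NN_sq (by rw [← f3, ← map_mul, ← f.map_one]; congr 1) p3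
  obtain ⟨P, a, b, d1, d2, d3, d4, d5, d6⟩ := core q1 q2 q3
    (NN_comm (by rw [← f1, ← f2, ← map_mul, ← map_mul]; congr 1) q1 s1 s2)
    (NN_comm (by rw [← f1, ← f3, ← map_mul, ← map_mul]; congr 1) q1 s3 s4)
    sQ ⟨⟨b1, b2, b3⟩, b4, b5, b6⟩
  refine ⟨a, b, GeneralLinearGroup.mkOfDetNeZero P d1, d2, d3, hom_ext ?_ ?_ ?_⟩
  · rw [f1, rho_apply]; exact mk_conj p1 (by rw [Dg_coe, Dm_S]; exact d4)
  · rw [f2, rho_apply]; exact mk_conj p2 (by rw [Dg_coe, Dm_R]; exact d5)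
  · rw [f3, rho_apply]; exact mk_conj p3 (by rw [Dg_coe, Dm_R1]; exact d6)

/-- exchange of the two planes -/
def WW : GL (Fin 4) ℝ :=
  ⟨!![0, 0, 1, 0; 0, 0, 0, 1; 1, 0, 0, 0; 0, 1, 0, 0], !![0, 0, 1, 0; 0, 0, 0, 1; 1, 0, 0, 0; 0, 1, 0, 0],
    by ext i j; fin_cases i <;> fin_cases j <;> simp [Matrix.mul_apply, Fin.sum_univ_four],
    by ext i j; fin_cases i <;> fin_cases j <;> simp [Matrix.mul_apply, Fin.sum_univ_four]⟩

theorem rho_swap (a b : ℝ) (P : GL (Fin 4) ℝ) : rho a b P = rho b a (P * WW) := by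
  refine MonoidHom.ext fun g => ?_
  have e : ProjGenLinGroup.mk (Dg a b g) = ProjGenLinGroup.mk (WW * Dg b a g * WW⁻¹) := by
    refine mk_eq' (c := (g.2 : ℤ)) (by simp) ?_
    rw [Units.val_mul, Units.val_mul, Dg_coe, Dg_coe]
    obtain ⟨i | i, ε⟩ := g <;> rcases Int.units_eq_one_or ε with rfl | rfl <;> ext k l <;>
      fin_cases k <;> fin_cases l <;> simp [WW, Dm, Matrix.mul_apply, Fin.sum_univ_four]
  simp [rho_apply, e, mul_assoc]

theorem near_naive {a b : ℝ} (ha : 0 < a) (hb : 0 < b) (P : GL (Fin 4) ℝ) :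
    NaiveCC (rho a b P).range := by
  rcases le_total b a with h | h
  · exact rho_naive ha hb.le h P
  · rw [rho_swap]; exact rho_naive hb ha.le h _

theorem near (X : Type) (x1 x2 x3 : X) (f0 : X → PGLR 4) (h1 : f0 x1 = rho 1 1 1 (r 0, -1))
    (h2 : f0 x2 = rho 1 1 1 (sr 0, 1)) (h3 : f0 x3 = rho 1 1 1 (sr 1, 1)) :
    ∀ᶠ f' in 𝓝 f0, ∀ f : G →* PGLR 4, f (r 0, -1) = f' x1 → f (sr 0, 1) = f' x2 →
      f (sr 1, 1) = f' x3 → ∃ a b P, 0 < a ∧ 0 < b ∧ f = rho a b P := by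
  have a1 := (isOpenMap_mk.prodMap (isOpenMap_mk.prodMap isOpenMap_mk)).image_mem_nhds rigid
  have a2 : Continuous fun f : X → PGLR 4 => (f x1, f x2, f x3) := by fun_prop
  have a3 := a2.tendsto f0
  rw [h1, h2, h3, rho_one, rho_one, rho_one] at a3
  filter_upwards [a3 a1] with f' hf' f b1 b2 b3
  obtain ⟨x, hx, h4⟩ := hf'
  simp only [Prod.ext_iff, Prod.map_fst, Prod.map_snd] at h4
  exact hx f (b1.trans h4.1.symm) (b2.trans h4.2.1.symm) (b3.trans h4.2.2.symm)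

end Pool.Agent.H652Z.CC
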